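import Pool.Agent.Helper22.BU.Defs

/-!
The fan of the blow-up at a fixed point.
-/

namespace Pool.Agent.Helper22.BU

open Pool.Agent.Helper21.Toric Finset

variable {n m : ℕ}

/-- rays of the blow-up -/
def bray (ray : Fin m → Fin n → ℤ) (τ : Finset (Fin m)) : Fin (m + 1) → Fin n → ℤ :=
  Fin.snoc (α := fun _ => Fin n → ℤ) ray (∑ i ∈ τ, ray i)

@[simp] lemma bray_cast (ray : Fin m → Fin n → ℤ) (τ : Finset (Fin m)) (i : Fin m) :
    bray ray τ i.castSucc = ray i := by simp [bray]

@[simp] lemma bray_last (ray : Fin m → Fin n → ℤ) (τ : Finset (Fin m)) :
    bray ray τ (Fin.last m) = ∑ i ∈ τ, ray i := by simp [bray]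

/-- coefficients with respect to the old rays -/
def push (τ : Finset (Fin m)) (c : Fin (m + 1) → ℝ) : Fin m → ℝ :=
  fun i => c i.castSucc + if i ∈ τ then c (Fin.last m) else 0

lemma vec_push (ray : Fin m → Fin n → ℤ) (τ : Finset (Fin m)) (c : Fin (m + 1) → ℝ) :
    vec (bray ray τ) c = vec ray (push τ c) := by
  ext j
  simp only [vec, push]
  rw [Fin.sum_univ_castSucc]
  simp only [bray_cast, bray_last, Finset.sum_apply]
  push_cast
  rw [Finset.mul_sum]
  simp_rw [add_mul, ite_mul, zero_mul]
  rw [Finset.sum_add_distrib]
  congr 1
  rw [← Finset.sum_filter]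
  simp

lemma push_nonneg {τ : Finset (Fin m)} {c : Fin (m + 1) → ℝ} (hc : ∀ i, 0 ≤ c i) (i : Fin m) :
    0 ≤ push τ c i := by
  simp only [push]
  split_ifs
  · exact add_nonneg (hc _) (hc _)
  · simpa using hc _

/-- the support of the pushed coefficients is a face of the old complex -/
lemma push_supp {K : Set (Finset (Fin m))} {τ : Finset (Fin m)} (hτ : τ ∈ K)
    {σ : Finset (Fin (m + 1))} (hσ : σ ∈ stack K τ) :
    ∃ ρ ∈ K, ∀ c : Fin (m + 1) → ℝ, (∀ i, i ∉ σ → c i = 0) → ∀ i, i ∉ ρ → push τ c i = 0 := by
  obtain ⟨h1, h2, h3⟩ := hσ
  by_cases hl : Fin.last m ∈ σ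
  · refine ⟨τ, hτ, ?_⟩
    intro c hc i hi
    simp only [push, if_neg hi, add_zero]
    apply hc
    intro h
    exact hi (h3 hl (mem_old.2 h))
  · refine ⟨old σ, h1, ?_⟩
    intro c hc i hi
    simp only [push]
    rw [hc _ (fun h => hi (mem_old.2 h)), hc _ hl]
    simp

/-- smoothness for a face containing the new ray -/
lemma smooth_new (X : Fan n m) {τ : Finset (Fin m)} (hτ : τ ∈ X.faces)
    {σ : Finset (Fin (m + 1))} (hσ : σ ∈ stack X.faces τ) (hl : Fin.last m ∈ σ) :
    ∃ (b : Module.Basis (Fin n) ℤ (Fin n → ℤ)) (f : Fin (m + 1) → Fin n),
      Set.InjOn f σ ∧ ∀ i ∈ σ, b (f i) = bray X.ray τ i := by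
  obtain ⟨h1, h2, h3⟩ := hσ
  obtain ⟨i0, hi0, hi0'⟩ := Finset.not_subset.1 h2
  obtain ⟨b, f, hf, hb⟩ := X.smooth τ hτ
  have hsub := h3 hl
  -- the transvection
  set w : Fin n → ℤ := ∑ i ∈ τ.erase i0, X.ray i with hw
  have hcw : b.coord (f i0) w = 0 := by
    rw [hw, map_sum]
    apply Finset.sum_eq_zero
    intro i hi
    rw [Finset.mem_erase] at hi
    rw [← hb i hi.2, Module.Basis.coord_apply, Module.Basis.repr_self, Finsupp.single_apply, if_neg]
    intro h
    exact hi.1 (hf hi.2 hi0 h)
  let φ : (Fin n → ℤ) ≃ₗ[ℤ] (Fin n → ℤ) :=
    LinearEquiv.ofLinearMap (LinearMap.id + (b.coord (f i0)).smulRight w)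
      (LinearMap.id - (b.coord (f i0)).smulRight w)
      (by
        ext1 j
        refine LinearMap.ext fun x => ?_
        simp only [LinearMap.comp_apply, LinearMap.add_apply, LinearMap.sub_apply,
          LinearMap.id_apply, LinearMap.smulRight_apply, map_sub, map_smul, hcw]
        simp)
      (by
        ext1 j
        refine LinearMap.ext fun x => ?_
        simp only [LinearMap.comp_apply, LinearMap.add_apply, LinearMap.sub_apply,
          LinearMap.id_apply, LinearMap.smulRight_apply, map_add, map_smul, hcw]
        simp)
  have hφ : ∀ x, φ x = x + b.coord (f i0) x • w := fun x => by simp [φ]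
  refine ⟨b.map φ, Fin.snoc (α := fun _ => Fin n) f (f i0), ?_, ?_⟩
  · intro i hi j hj hij
    induction i using Fin.lastCases with
    | last =>
      induction j using Fin.lastCases with
      | last => rfl
      | cast j =>
        simp only [Fin.snoc_last, Fin.snoc_castSucc] at hij
        have hj' : j ∈ τ := hsub (mem_old.2 hj)
        have := hf hi0 hj' hij
        subst this
        exact absurd (mem_old.2 hj) hi0'
    | cast i =>
      have hi' : i ∈ τ := hsub (mem_old.2 hi)
      induction j using Fin.lastCases with
      | last =>
        simp only [Fin.snoc_last, Fin.snoc_castSucc] at hij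
        have := hf hi' hi0 hij
        subst this
        exact absurd (mem_old.2 hi) hi0'
      | cast j =>
        have hj' : j ∈ τ := hsub (mem_old.2 hj)
        simp only [Fin.snoc_castSucc] at hij
        rw [hf hi' hj' hij]
  · intro i hi
    induction i using Fin.lastCases with
    | last =>
      rw [Fin.snoc_last, Module.Basis.map_apply, hφ, bray_last, Module.Basis.coord_apply,
        Module.Basis.repr_self, Finsupp.single_eq_same, one_smul, hb i0 hi0, hw,
        Finset.add_sum_erase _ _ hi0]
    | cast i =>
      have hi' : i ∈ τ := hsub (mem_old.2 hi)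
      rw [Fin.snoc_castSucc, Module.Basis.map_apply, hφ, bray_cast, Module.Basis.coord_apply,
        Module.Basis.repr_self, Finsupp.single_apply, if_neg, zero_smul, add_zero, hb i hi']
      intro h
      have := hf hi' hi0 h
      subst this
      exact hi0' (mem_old.2 hi)

/-- The fan of the blow-up of the toric manifold of `X` at the fixed point of the facet `τ`. -/
def Blow (X : Fan n m) (τ : Finset (Fin m)) (hτ : IsFacet n X.faces τ) (hn : 2 ≤ n) :
    Fan n (m + 1) :=
  mkFan (bray X.ray τ) (stack X.faces τ)
    (by
      rintro σ ⟨h1, h2, h3⟩ ρ hρ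
      have hsub : old ρ ⊆ old σ := by
        intro i hi
        exact mem_old.2 (hρ (mem_old.1 hi))
      exact ⟨X.down_closed _ h1 _ hsub, fun h => h2 (h.trans hsub), fun h => hsub.trans (h3 (hρ h))⟩)
    (by
      intro i
      induction i using Fin.lastCases with
      | last =>
        have h0 : old ({Fin.last m} : Finset (Fin (m + 1))) = ∅ := by
          ext i; simp [mem_old]
        refine ⟨?_, ?_, ?_⟩
        · rw [h0]; exact X.empty_mem
        · rw [h0]
          intro h
          have := Finset.card_le_card h
          rw [hτ.2] at this
          simp at this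
          omega
        · intro _
          rw [h0]
          exact Finset.empty_subset _
      | cast i =>
        have h0 : old ({i.castSucc} : Finset (Fin (m + 1))) = {i} := by
          ext j; simp [mem_old]
        refine ⟨?_, ?_, ?_⟩
        · rw [h0]; exact X.vertex_mem i
        · rw [h0]
          intro h
          have := Finset.card_le_card h
          rw [hτ.2] at this
          simp at this
          omega
        · intro h
          rw [Finset.mem_singleton] at h
          exact absurd h.symm (Fin.castSucc_lt_last i).ne)
    (by
      have h0 : old (∅ : Finset (Fin (m + 1))) = ∅ := by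
        ext i; simp [mem_old]
      refine ⟨?_, ?_, ?_⟩
      · rw [h0]; exact X.empty_mem
      · rw [h0]
        intro h
        have := Finset.card_le_card h
        rw [hτ.2] at this
        simp at this
        omega
      · intro h; simp at h)
    (by
      intro σ hσ
      by_cases hl : Fin.last m ∈ σ
      · exact smooth_new X hτ.1 hσ hl
      · obtain ⟨b, f, hf, hb⟩ := X.smooth (old σ) hσ.1
        refine ⟨b, Fin.snoc (α := fun _ => Fin n) f ⟨0, by omega⟩, ?_, ?_⟩
        · intro i hi j hj hij
          induction i using Fin.lastCases with
          | last => exact absurd hi hl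
          | cast i =>
            induction j using Fin.lastCases with
            | last => exact absurd hj hl
            | cast j =>
              simp only [Fin.snoc_castSucc] at hij
              rw [hf (mem_old.2 hi) (mem_old.2 hj) hij]
        · intro i hi
          induction i using Fin.lastCases with
          | last => exact absurd hi hl
          | cast i =>
            rw [Fin.snoc_castSucc, bray_cast, hb i (mem_old.2 hi)])
    (by
      intro σ hσ ρ hρ c d hc hcσ hd hdρ h
      rw [vec_push, vec_push] at h
      obtain ⟨σ0, hσ0, hs⟩ := push_supp hτ.1 hσ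
      obtain ⟨ρ0, hρ0, hr⟩ := push_supp hτ.1 hρ
      have hp : push τ c = push τ d :=
        uniq hσ0 hρ0 (push_nonneg hc) (hs c hcσ) (push_nonneg hd) (hr d hdρ) h
      obtain ⟨i, hi, hi'⟩ := Finset.not_subset.1 hσ.2.1
      obtain ⟨j, hj, hj'⟩ := Finset.not_subset.1 hρ.2.1
      have h1 := congrFun hp i
      have h2 := congrFun hp j
      simp only [push, if_pos hi, if_pos hj] at h1 h2
      rw [hcσ _ (fun h => hi' (mem_old.2 h))] at h1
      rw [hdρ _ (fun h => hj' (mem_old.2 h))] at h2
      have h3 := hd i.castSucc
      have h4 := hc j.castSucc
      have hl : c (Fin.last m) = d (Fin.last m) := by linarith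
      ext k
      induction k using Fin.lastCases with
      | last => exact hl
      | cast k =>
        have h5 := congrFun hp k
        simp only [push, hl] at h5
        linarith)
    (by
      intro v
      obtain ⟨ρ, hρ, hv⟩ := X.complete v
      rw [mem_realCone] at hv
      obtain ⟨c, hc, hcρ, hv⟩ := hv
      by_cases hs : τ ⊆ ρ
      · have hne : τ.Nonempty := by
          rw [← Finset.card_pos, hτ.2]; omega
        obtain ⟨i0, hi0, hmin⟩ := Finset.exists_min_image τ c hne
        have hρτ : ρ = τ := (Finset.eq_of_subset_of_card_le hs (by
          rw [hτ.2]; exact card_le hρ)).symm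
        refine ⟨insert (Fin.last m) ((τ.erase i0).map Fin.castSuccEmb), ?_,
          Fin.snoc (α := fun _ => ℝ) (fun i => if i ∈ τ then c i - c i0 else 0) (c i0), ?_, ?_, ?_⟩
        · refine ⟨?_, ?_, ?_⟩
          · rw [old_insert]
            exact X.down_closed _ hτ.1 _ (Finset.erase_subset _ _)
          · rw [old_insert]
            intro h
            exact Finset.notMem_erase i0 τ (h hi0)
          · intro _
            rw [old_insert]
            exact Finset.erase_subset _ _
        · intro i
          induction i using Fin.lastCases with
          | last => rw [Fin.snoc_last]; exact hc _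
          | cast i =>
            rw [Fin.snoc_castSucc]
            split_ifs with h
            · have := hmin i h
              linarith
            · exact le_rfl
        · intro i hi
          induction i using Fin.lastCases with
          | last => simp at hi
          | cast i =>
            rw [Fin.snoc_castSucc]
            split_ifs with h
            · have : i = i0 := by
                by_contra hne
                apply hi
                simp [h, hne]
              rw [this, sub_self]
            · rfl
        · rw [vec_push, hv]
          congr 1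
          ext i
          simp only [push, Fin.snoc_castSucc, Fin.snoc_last]
          split_ifs with h
          · ring
          · rw [hcρ i (by rw [hρτ]; exact h)]; ring
      · refine ⟨ρ.map Fin.castSuccEmb, ?_, Fin.snoc (α := fun _ => ℝ) c 0, ?_, ?_, ?_⟩
        · refine ⟨?_, ?_, ?_⟩
          · rw [old_map]; exact hρ
          · rw [old_map]; exact hs
          · intro h; exact absurd h (last_notMem_map ρ)
        · intro i
          induction i using Fin.lastCases with
          | last => rw [Fin.snoc_last]
          | cast i => rw [Fin.snoc_castSucc]; exact hc _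
        · intro i hi
          induction i using Fin.lastCases with
          | last => rw [Fin.snoc_last]
          | cast i =>
            rw [Fin.snoc_castSucc]
            apply hcρ
            intro h
            apply hi
            simp [h]
        · rw [vec_push, hv]
          congr 1
          ext i
          simp [push])

lemma Blow_faces (X : Fan n m) (τ : Finset (Fin m)) (hτ : IsFacet n X.faces τ) (hn : 2 ≤ n) :
    (Blow X τ hτ hn).faces = stack X.faces τ := rfl

lemma Blow_ray (X : Fan n m) (τ : Finset (Fin m)) (hτ : IsFacet n X.faces τ) (hn : 2 ≤ n) :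
    (Blow X τ hτ hn).ray = bray X.ray τ := rfl

end Pool.Agent.Helper22.BU
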