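import Pool.Agent.Helper22.BU.Swap

/-!
Degrees of the vertices; the combinatorial part.
-/

namespace Pool.Agent.Helper22.BU

open Pool.Agent.Helper21.Toric Finset

variable {n m : ℕ}

lemma not_sub_pair {τ : Finset (Fin m)} (hτ : τ.card = n) (hn : 3 ≤ n) (v w : Fin m) :
    ¬ τ ⊆ {v, w} := by
  intro h
  have := Finset.card_le_card h
  have h2 := Finset.card_le_two (a := v) (b := w)
  omega

lemma old_pair (v w : Fin m) : old ({v.castSucc, w.castSucc} : Finset (Fin (m + 1))) = {v, w} := by
  ext i; simp [mem_old]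

lemma old_pair_last (v : Fin m) :
    old ({v.castSucc, Fin.last m} : Finset (Fin (m + 1))) = {v} := by
  ext i; simp [mem_old]

lemma pair_mem {K : Set (Finset (Fin m))} {τ : Finset (Fin m)} (hτ : IsFacet n K τ) (hn : 3 ≤ n)
    (v w : Fin m) :
    ({v.castSucc, w.castSucc} : Finset (Fin (m + 1))) ∈ stack K τ ↔ ({v, w} : Finset (Fin m)) ∈ K := by
  constructor
  · rintro ⟨h, _, _⟩
    rwa [old_pair] at h
  · intro h
    refine ⟨?_, ?_, ?_⟩
    · rw [old_pair]; exact h
    · rw [old_pair]; exact not_sub_pair hτ.2 hn v w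
    · intro h
      simp only [Finset.mem_insert, Finset.mem_singleton] at h
      rcases h with h | h
      · exact absurd h.symm (Fin.castSucc_lt_last v).ne
      · exact absurd h.symm (Fin.castSucc_lt_last w).ne

lemma pair_last_mem {K : Set (Finset (Fin m))} (hK : ∀ σ ∈ K, ∀ τ, τ ⊆ σ → τ ∈ K)
    {τ : Finset (Fin m)} (hτ : IsFacet n K τ) (hn : 3 ≤ n) (v : Fin m) :
    ({v.castSucc, Fin.last m} : Finset (Fin (m + 1))) ∈ stack K τ ↔ v ∈ τ := by
  constructor
  · rintro ⟨_, _, h⟩
    rw [old_pair_last] at h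
    simpa using h (by simp)
  · intro h
    refine ⟨?_, ?_, ?_⟩
    · rw [old_pair_last]; exact hK _ hτ.1 _ (by simpa using h)
    · rw [old_pair_last]
      intro h'
      have := Finset.card_le_card h'
      rw [hτ.2] at this
      simp at this
      omega
    · intro _
      rw [old_pair_last]
      simpa using h

lemma nbr_last {K : Set (Finset (Fin m))} (hK : ∀ σ ∈ K, ∀ τ, τ ⊆ σ → τ ∈ K)
    {τ : Finset (Fin m)} (hτ : IsFacet n K τ) (hn : 3 ≤ n) :
    nbr (stack K τ) (Fin.last m) = Fin.castSucc '' (τ : Set (Fin m)) := by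
  ext w
  induction w using Fin.lastCases with
  | last =>
    simp only [nbr, Set.mem_ofPred_eq, ne_eq, not_true_eq_false, false_and, false_iff]
    rintro ⟨i, _, hi⟩
    exact (Fin.castSucc_lt_last i).ne hi
  | cast w =>
    simp only [nbr, Set.mem_ofPred_eq, Set.mem_image, Finset.mem_coe]
    rw [Finset.pair_comm, pair_last_mem hK hτ hn]
    constructor
    · rintro ⟨_, h⟩
      exact ⟨w, h, rfl⟩
    · rintro ⟨i, hi, h⟩
      rw [Fin.castSucc_injective _ h] at hi
      exact ⟨(Fin.castSucc_lt_last w).ne, hi⟩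

lemma deg_last {K : Set (Finset (Fin m))} (hK : ∀ σ ∈ K, ∀ τ, τ ⊆ σ → τ ∈ K)
    {τ : Finset (Fin m)} (hτ : IsFacet n K τ) (hn : 3 ≤ n) : deg (stack K τ) (Fin.last m) = n := by
  rw [deg, nbr_last hK hτ hn, Set.ncard_image_of_injective _ (Fin.castSucc_injective _),
    Set.ncard_coe_finset, hτ.2]

lemma deg_cast {K : Set (Finset (Fin m))} (hK : ∀ σ ∈ K, ∀ τ, τ ⊆ σ → τ ∈ K)
    {τ : Finset (Fin m)} (hτ : IsFacet n K τ) (hn : 3 ≤ n) (v : Fin m) :
    deg (stack K τ) v.castSucc = deg K v + if v ∈ τ then 1 else 0 := by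
  classical
  have h : nbr (stack K τ) v.castSucc =
      Fin.castSucc '' nbr K v ∪ (if v ∈ τ then {Fin.last m} else ∅) := by
    ext w
    induction w using Fin.lastCases with
    | last =>
      simp only [nbr, Set.mem_ofPred_eq, Set.mem_union, Set.mem_image]
      rw [pair_last_mem hK hτ hn]
      constructor
      · rintro ⟨_, h⟩
        right
        rw [if_pos h]
        exact Set.mem_singleton _
      · rintro (⟨i, _, hi⟩ | h)
        · exact absurd hi (Fin.castSucc_lt_last i).ne
        · by_cases hv : v ∈ τ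
          · exact ⟨(Fin.castSucc_lt_last v).ne', hv⟩
          · rw [if_neg hv] at h
            exact absurd h (Set.notMem_empty _)
    | cast w =>
      simp only [nbr, Set.mem_ofPred_eq, Set.mem_union, Set.mem_image]
      rw [pair_mem hτ hn]
      constructor
      · rintro ⟨h1, h2⟩
        left
        exact ⟨w, ⟨fun h => h1 (by rw [h]), h2⟩, rfl⟩
      · rintro (⟨i, ⟨hi1, hi2⟩, hi⟩ | h)
        · have := Fin.castSucc_injective _ hi
          subst this
          exact ⟨fun h => hi1 (Fin.castSucc_injective _ h), hi2⟩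
        · by_cases hv : v ∈ τ
          · rw [if_pos hv] at h
            exact absurd h (Fin.castSucc_lt_last w).ne
          · rw [if_neg hv] at h
            exact absurd h (Set.notMem_empty _)
  rw [deg, h]
  split_ifs with hv
  · rw [Set.union_singleton, Set.ncard_insert_of_notMem,
      Set.ncard_image_of_injective _ (Fin.castSucc_injective _), deg]
    rintro ⟨i, _, hi⟩
    exact (Fin.castSucc_lt_last i).ne hi
  · rw [Set.union_empty, Set.ncard_image_of_injective _ (Fin.castSucc_injective _), deg, add_zero]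

/-- In the complex of a complete fan every vertex of a facet has an opposite vertex. -/
lemma exists_opp (X : Fan n m) {τ : Finset (Fin m)} (hτ : IsFacet n X.faces τ) {v : Fin m}
    (hv : v ∈ τ) : ∃ w, w ∉ τ ∧ insert w (τ.erase v) ∈ X.faces ∧
      ∀ p, p ∉ τ.erase v → insert p (τ.erase v) ∈ X.faces → p = v ∨ p = w := by
  have hρ : τ.erase v ∈ X.faces := X.down_closed _ hτ.1 _ (Finset.erase_subset _ _)
  have hc : (τ.erase v).card + 1 = n := by rw [Finset.card_erase_add_one hv, hτ.2]
  obtain ⟨u, k, l, hu, hk, hl, hkl⟩ := ridge hρ hc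
  have hkρ : k ∉ τ.erase v := by
    intro h; rw [hu k h] at hk; norm_num at hk
  have hlρ : l ∉ τ.erase v := by
    intro h; rw [hu l h] at hl; norm_num at hl
  have hne : k ≠ l := by
    rintro rfl; rw [hk] at hl; norm_num at hl
  have hvρ : v ∉ τ.erase v := Finset.notMem_erase v τ
  have hvf : insert v (τ.erase v) ∈ X.faces := by rw [Finset.insert_erase hv]; exact hτ.1
  rcases (hkl v hvρ).1 hvf with h | h
  · refine ⟨l, ?_, (hkl l hlρ).2 (Or.inr rfl), ?_⟩
    · intro hl'
      apply hlρ
      exact Finset.mem_erase.2 ⟨fun h' => hne (h.symm.trans h'.symm), hl'⟩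
    · intro p hp hpf
      rw [h]
      exact (hkl p hp).1 hpf
  · refine ⟨k, ?_, (hkl k hkρ).2 (Or.inl rfl), ?_⟩
    · intro hk'
      apply hkρ
      exact Finset.mem_erase.2 ⟨fun h' => hne (h'.trans h), hk'⟩
    · intro p hp hpf
      rw [h]
      exact ((hkl p hp).1 hpf).symm

lemma exists_facet_mem (X : Fan n m) (v : Fin m) : ∃ τ, IsFacet n X.faces τ ∧ v ∈ τ := by
  obtain ⟨τ, hτ, hsub, hc⟩ := exists_facet (X.vertex_mem v)
  exact ⟨τ, ⟨hτ, hc⟩, hsub (Finset.mem_singleton_self v)⟩

/-- Every vertex has degree at least `n`. -/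
lemma le_deg (X : Fan n m) (hn : 3 ≤ n) (v : Fin m) : n ≤ deg X.faces v := by
  obtain ⟨τ, hτ, hv⟩ := exists_facet_mem X v
  have h2 : 1 < τ.card := by rw [hτ.2]; omega
  obtain ⟨a, ha, hav⟩ := Finset.exists_mem_ne h2 v
  obtain ⟨w, hw, hwf, _⟩ := exists_opp X hτ ha
  have hsub : ((insert w (τ.erase v) : Finset (Fin m)) : Set (Fin m)) ⊆ nbr X.faces v := by
    intro x hx
    rw [Finset.mem_coe, Finset.mem_insert] at hx
    rcases hx with rfl | hx
    · refine ⟨fun h => hw (h ▸ hv), ?_⟩
      apply X.down_closed _ hwf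
      intro y hy
      rw [Finset.mem_insert, Finset.mem_singleton] at hy
      rcases hy with rfl | rfl
      · exact Finset.mem_insert_of_mem (Finset.mem_erase.2 ⟨Ne.symm hav, hv⟩)
      · exact Finset.mem_insert_self _ _
    · rw [Finset.mem_erase] at hx
      refine ⟨hx.1, ?_⟩
      apply X.down_closed _ hτ.1
      intro y hy
      rw [Finset.mem_insert, Finset.mem_singleton] at hy
      rcases hy with rfl | rfl
      · exact hv
      · exact hx.2
  have h3 := Set.ncard_le_ncard hsub (Set.toFinite _)
  rw [Set.ncard_coe_finset, Finset.card_insert_of_notMem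
    (fun h => hw (Finset.mem_of_mem_erase h)), Finset.card_erase_of_mem hv, hτ.2] at h3
  rw [deg]
  omega

/-- vertices of degree `n` outside a set -/
noncomputable def cnt (n : ℕ) (K : Set (Finset (Fin m))) (T : Finset (Fin m)) : ℕ :=
  {v | v ∉ T ∧ deg K v = n}.ncard

lemma num_stack (X : Fan n m) (hn : 3 ≤ n) {τ : Finset (Fin m)} (hτ : IsFacet n X.faces τ) :
    num n (stack X.faces τ) = cnt n X.faces τ + 1 := by
  have h : {v | deg (stack X.faces τ) v = n} =
      insert (Fin.last m) (Fin.castSucc '' {v | v ∉ τ ∧ deg X.faces v = n}) := by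
    ext w
    induction w using Fin.lastCases with
    | last =>
      simp [deg_last X.down_closed hτ hn]
    | cast w =>
      simp only [Set.mem_ofPred_eq, Set.mem_insert_iff, Set.mem_image]
      rw [deg_cast X.down_closed hτ hn]
      have hle := le_deg X hn w
      constructor
      · intro h
        right
        refine ⟨w, ⟨?_, ?_⟩, rfl⟩
        · intro hw
          rw [if_pos hw] at h
          omega
        · split_ifs at h <;> omega
      · rintro (h | ⟨i, ⟨h1, h2⟩, h3⟩)
        · exact absurd h (Fin.castSucc_lt_last w).ne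
        · have := Fin.castSucc_injective _ h3
          subst this
          rw [if_neg h1, add_zero, h2]
  rw [num, h, Set.ncard_insert_of_notMem,
    Set.ncard_image_of_injective _ (Fin.castSucc_injective _), cnt]
  rintro ⟨i, _, hi⟩
  exact (Fin.castSucc_lt_last i).ne hi

lemma num_old (X : Fan n m) (hn : 3 ≤ n) {τ τ' : Finset (Fin m)} (hτ : IsFacet n X.faces τ)
    (hτ' : IsFacet n X.faces τ') (hne : τ ≠ τ') :
    num n (stack (stack X.faces τ) (τ'.map Fin.castSuccEmb)) = cnt n X.faces (τ ∪ τ') + 2 := by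
  have hn2 : 2 ≤ n := by omega
  have h1 : IsFacet n (Blow X τ hτ hn2).faces (τ'.map Fin.castSuccEmb) := isFacet_map hτ hτ' hne
  have h2 := num_stack (Blow X τ hτ hn2) hn h1
  rw [Blow_faces] at h2
  rw [h2]
  have h : {v | v ∉ τ'.map Fin.castSuccEmb ∧ deg (stack X.faces τ) v = n} =
      insert (Fin.last m) (Fin.castSucc '' {v | v ∉ τ ∪ τ' ∧ deg X.faces v = n}) := by
    ext w
    induction w using Fin.lastCases with
    | last =>
      simp [deg_last X.down_closed hτ hn]
    | cast w =>
      simp only [Set.mem_ofPred_eq, Set.mem_insert_iff, Set.mem_image]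
      rw [deg_cast X.down_closed hτ hn]
      have hle := le_deg X hn w
      have hmem : w.castSucc ∈ τ'.map Fin.castSuccEmb ↔ w ∈ τ' := by simp
      rw [hmem]
      constructor
      · rintro ⟨h0, h⟩
        right
        refine ⟨w, ⟨?_, ?_⟩, rfl⟩
        · intro hw
          rw [Finset.mem_union] at hw
          rcases hw with hw | hw
          · rw [if_pos hw] at h
            omega
          · exact h0 hw
        · split_ifs at h <;> omega
      · rintro (h | ⟨i, ⟨h1, h2⟩, h3⟩)
        · exact absurd h (Fin.castSucc_lt_last w).ne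
        · have := Fin.castSucc_injective _ h3
          subst this
          rw [Finset.mem_union, not_or] at h1
          rw [if_neg h1.1, add_zero]
          exact ⟨h1.2, h2⟩
  rw [cnt, h, Set.ncard_insert_of_notMem,
    Set.ncard_image_of_injective _ (Fin.castSucc_injective _), cnt]
  rintro ⟨i, _, hi⟩
  exact (Fin.castSucc_lt_last i).ne hi

lemma num_new (X : Fan n m) (hn : 3 ≤ n) {τ : Finset (Fin m)} (hτ : IsFacet n X.faces τ)
    {v0 : Fin m} (hv : v0 ∈ τ) :
    num n (stack (stack X.faces τ) (insert (Fin.last m) ((τ.erase v0).map Fin.castSuccEmb))) =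
      cnt n X.faces τ + 1 := by
  have hn2 : 2 ≤ n := by omega
  have h1 : IsFacet n (Blow X τ hτ hn2).faces
    (insert (Fin.last m) ((τ.erase v0).map Fin.castSuccEmb)) := isFacet_new X.down_closed hτ hv
  have h2 := num_stack (Blow X τ hτ hn2) hn h1
  rw [Blow_faces] at h2
  rw [h2]
  have h : {v | v ∉ insert (Fin.last m) ((τ.erase v0).map Fin.castSuccEmb) ∧
      deg (stack X.faces τ) v = n} = Fin.castSucc '' {v | v ∉ τ ∧ deg X.faces v = n} := by
    ext w
    induction w using Fin.lastCases with
    | last =>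
      simp
    | cast w =>
      simp only [Set.mem_ofPred_eq, Set.mem_image]
      rw [deg_cast X.down_closed hτ hn]
      have hle := le_deg X hn w
      constructor
      · rintro ⟨h0, h⟩
        refine ⟨w, ⟨?_, ?_⟩, rfl⟩
        · intro hw
          rw [if_pos hw] at h
          omega
        · split_ifs at h <;> omega
      · rintro ⟨i, ⟨h1, h2⟩, h3⟩
        have := Fin.castSucc_injective _ h3
        subst this
        rw [if_neg h1, add_zero]
        refine ⟨?_, h2⟩
        intro h4
        rw [Finset.mem_insert] at h4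
        rcases h4 with h4 | h4
        · exact (Fin.castSucc_lt_last i).ne h4
        · apply h1
          have : i ∈ τ.erase v0 := by simpa using h4
          exact Finset.mem_of_mem_erase this
  rw [cnt, h, Set.ncard_image_of_injective _ (Fin.castSucc_injective _), cnt]

/-- isomorphic complexes have the same number of vertices of degree `n` -/
lemma deg_iso {m' : ℕ} {K : Set (Finset (Fin m))} {L : Set (Finset (Fin m'))} (φ : Fin m ≃ Fin m')
    (hφ : ∀ σ : Finset (Fin m), σ ∈ K ↔ σ.map φ.toEmbedding ∈ L) (v : Fin m) :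
    nbr L (φ v) = φ '' nbr K v := by
  ext w
  simp only [nbr, Set.mem_ofPred_eq, Set.mem_image]
  constructor
  · rintro ⟨h1, h2⟩
    refine ⟨φ.symm w, ⟨?_, ?_⟩, φ.apply_symm_apply w⟩
    · intro h
      apply h1
      rw [← h, φ.apply_symm_apply]
    · rw [hφ, Finset.map_insert, Finset.map_singleton]
      simpa using h2
  · rintro ⟨x, ⟨h1, h2⟩, rfl⟩
    refine ⟨fun h => h1 (φ.injective h), ?_⟩
    rw [hφ, Finset.map_insert, Finset.map_singleton] at h2
    simpa using h2

lemma num_iso {m' : ℕ} {K : Set (Finset (Fin m))} {L : Set (Finset (Fin m'))}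
    (h : ComplexIso K L) : num n K = num n L := by
  obtain ⟨φ, hφ⟩ := h
  have h1 : {w | deg L w = n} = φ '' {v | deg K v = n} := by
    ext w
    simp only [Set.mem_ofPred_eq, Set.mem_image]
    constructor
    · intro h
      refine ⟨φ.symm w, ?_, φ.apply_symm_apply w⟩
      rw [deg, ← φ.apply_symm_apply w, deg_iso φ hφ, Set.ncard_image_of_injective _ φ.injective] at h
      exact h
    · rintro ⟨v, hv, rfl⟩
      rw [deg, deg_iso φ hφ, Set.ncard_image_of_injective _ φ.injective]
      exact hv
  rw [num, num, h1, Set.ncard_image_of_injective _ φ.injective]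

/-- the counting identity -/
lemma cnt_union (K : Set (Finset (Fin m))) (T T' : Finset (Fin m)) :
    cnt n K T = cnt n K (T ∪ T') + {v | v ∈ T' ∧ v ∉ T ∧ deg K v = n}.ncard := by
  rw [cnt, cnt, ← Set.ncard_union_eq]
  · congr 1
    ext v
    simp only [Set.mem_union, Set.mem_ofPred_eq, Finset.mem_union]
    tauto
  · rw [Set.disjoint_left]
    rintro v ⟨h1, _⟩ ⟨h2, _⟩
    exact h1 (Finset.mem_union_right _ h2)

/-- If any two facets `τ`, `τ'` differ by exactly one vertex of degree `n` in `τ'`, then the complex is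
the boundary of a simplex. -/
lemma eq_simplex (X : Fan n m) (hn : 3 ≤ n)
    (h : ∀ τ τ', IsFacet n X.faces τ → IsFacet n X.faces τ' → τ ≠ τ' →
      {v | v ∈ τ' ∧ v ∉ τ ∧ deg X.faces v = n}.ncard = 1) : m = n + 1 := by
  classical
  -- every vertex has degree n
  have hdeg : ∀ v, deg X.faces v = n := by
    intro v
    obtain ⟨τ', hτ', hv⟩ := exists_facet_mem X v
    obtain ⟨w, hw, hwf, _⟩ := exists_opp X hτ' hv
    have hτ : IsFacet n X.faces (insert w (τ'.erase v)) := by
      refine ⟨hwf, ?_⟩
      rw [Finset.card_insert_of_notMem (fun h => hw (Finset.mem_of_mem_erase h)),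
        Finset.card_erase_add_one hv, hτ'.2]
    have hvn : v ∉ insert w (τ'.erase v) := by
      intro h'
      rw [Finset.mem_insert] at h'
      rcases h' with h' | h'
      · exact hw (h' ▸ hv)
      · exact Finset.notMem_erase v τ' h'
    have h1 := h _ τ' hτ hτ' (fun h' => hvn (by rw [h']; exact hv))
    rw [Set.ncard_eq_one] at h1
    obtain ⟨x, hx⟩ := h1
    have hxm : x ∈ {v_1 | v_1 ∈ τ' ∧ v_1 ∉ insert w (τ'.erase v) ∧ deg X.faces v_1 = n} := by
      rw [hx]; exact Set.mem_singleton x
    obtain ⟨hx1, hx2, hx3⟩ := hxm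
    have : x = v := by
      by_contra hne
      apply hx2
      exact Finset.mem_insert_of_mem (Finset.mem_erase.2 ⟨hne, hx1⟩)
    rw [← this]; exact hx3
  have hsd : ∀ τ τ', IsFacet n X.faces τ → IsFacet n X.faces τ' → τ ≠ τ' → (τ' \ τ).card = 1 := by
    intro τ τ' hτ hτ' hne
    have h1 := h τ τ' hτ hτ' hne
    have h2 : {v | v ∈ τ' ∧ v ∉ τ ∧ deg X.faces v = n} = ((τ' \ τ : Finset (Fin m)) : Set (Fin m)) := by
      ext v
      simp [hdeg v]
    rw [h2, Set.ncard_coe_finset] at h1
    exact h1
  obtain ⟨F, hF, _, hFc⟩ := exists_facet X.empty_mem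
  have hFF : IsFacet n X.faces F := ⟨hF, hFc⟩
  have hopp : ∀ v, ∃ w, v ∈ F → (w ∉ F ∧ insert w (F.erase v) ∈ X.faces ∧
      ∀ p, p ∉ F.erase v → insert p (F.erase v) ∈ X.faces → p = v ∨ p = w) := by
    intro v
    by_cases hv : v ∈ F
    · obtain ⟨w, hw⟩ := exists_opp X hFF hv
      exact ⟨w, fun _ => hw⟩
    · exact ⟨v, fun h => absurd h hv⟩
  choose w hw using hopp
  have hwF : ∀ v ∈ F, IsFacet n X.faces (insert (w v) (F.erase v)) := by
    intro v hv
    refine ⟨(hw v hv).2.1, ?_⟩
    rw [Finset.card_insert_of_notMem (fun h => (hw v hv).1 (Finset.mem_of_mem_erase h)),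
      Finset.card_erase_add_one hv, hFc]
  -- all opposite vertices agree
  have hww : ∀ v ∈ F, ∀ v' ∈ F, w v = w v' := by
    intro v hv v' hv'
    by_contra hne
    have hvv : v ≠ v' := fun h => hne (by rw [h])
    have hnn : insert (w v) (F.erase v) ≠ insert (w v') (F.erase v') := by
      intro h'
      have h1 : w v ∈ insert (w v') (F.erase v') := by rw [← h']; exact Finset.mem_insert_self _ _
      rw [Finset.mem_insert] at h1
      rcases h1 with h1 | h1
      · exact hne h1
      · exact (hw v hv).1 (Finset.mem_of_mem_erase h1)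
    have h1 := hsd _ _ (hwF v' hv') (hwF v hv) (Ne.symm hnn)
    have h2 : ({w v, v'} : Finset (Fin m)) ⊆ insert (w v) (F.erase v) \ insert (w v') (F.erase v') := by
      intro x hx
      rw [Finset.mem_insert, Finset.mem_singleton] at hx
      rw [Finset.mem_sdiff]
      rcases hx with rfl | rfl
      · refine ⟨Finset.mem_insert_self _ _, ?_⟩
        intro h3
        rw [Finset.mem_insert] at h3
        rcases h3 with h3 | h3
        · exact hne h3
        · exact (hw v hv).1 (Finset.mem_of_mem_erase h3)
      · refine ⟨Finset.mem_insert_of_mem (Finset.mem_erase.2 ⟨Ne.symm hvv, hv'⟩), ?_⟩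
        intro h3
        rw [Finset.mem_insert] at h3
        rcases h3 with h3 | h3
        · exact (hw x hv').1 (h3 ▸ hv')
        · exact Finset.notMem_erase x F h3
    have h3 := Finset.card_le_card h2
    rw [h1, Finset.card_pair] at h3
    · omega
    · intro h4
      exact (hw v hv).1 (h4 ▸ hv')
  have hFne : F.Nonempty := by rw [← Finset.card_pos, hFc]; omega
  obtain ⟨a, ha⟩ := hFne
  have hall : ∀ v, v ∈ insert (w a) F := by
    intro v
    obtain ⟨G, hG, hvG⟩ := exists_facet_mem X v
    by_cases hGF : G = F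
    · rw [hGF] at hvG; exact Finset.mem_insert_of_mem hvG
    · have h1 := hsd F G hFF hG (Ne.symm hGF)
      have h2 := hsd G F hG hFF hGF
      obtain ⟨g, hg⟩ := Finset.card_eq_one.1 h1
      obtain ⟨b, hb⟩ := Finset.card_eq_one.1 h2
      have hg1 : g ∈ G \ F := by rw [hg]; exact Finset.mem_singleton_self g
      have hb1 : b ∈ F \ G := by rw [hb]; exact Finset.mem_singleton_self b
      rw [Finset.mem_sdiff] at hg1 hb1
      have hGe : G = insert g (F.erase b) := by
        ext x
        rw [Finset.mem_insert, Finset.mem_erase]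
        constructor
        · intro hx
          by_cases hxF : x ∈ F
          · right
            exact ⟨fun h' => hb1.2 (h' ▸ hx), hxF⟩
          · left
            have : x ∈ G \ F := Finset.mem_sdiff.2 ⟨hx, hxF⟩
            rw [hg] at this
            exact Finset.mem_singleton.1 this
        · rintro (rfl | ⟨hx1, hx2⟩)
          · exact hg1.1
          · by_contra hxG
            have : x ∈ F \ G := Finset.mem_sdiff.2 ⟨hx2, hxG⟩
            rw [hb] at this
            exact hx1 (Finset.mem_singleton.1 this)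
      have h3 : g = b ∨ g = w b := (hw b hb1.1).2.2 g
        (fun h' => hg1.2 (Finset.mem_of_mem_erase h')) (by rw [← hGe]; exact hG.1)
      have h4 : g = w b := h3.resolve_left (fun h' => hg1.2 (h' ▸ hb1.1))
      rw [hGe, h4, hww b hb1.1 a ha] at hvG
      rw [Finset.mem_insert] at hvG ⊢
      rcases hvG with h5 | h5
      · exact Or.inl h5
      · exact Or.inr (Finset.mem_of_mem_erase h5)
  have huniv : insert (w a) F = Finset.univ := by
    ext v; simp only [hall v, Finset.mem_univ]
  have hcard := congrArg Finset.card huniv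
  rw [Finset.card_insert_of_notMem (hw a ha).1, hFc, Finset.card_univ, Fintype.card_fin] at hcard
  exact hcard.symm

end Pool.Agent.Helper22.BU
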