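import Pool.Agent.Helper21.FanGale

/-!
Point blow-ups of toric manifolds: the combinatorial operation `stack`, facets, degrees.
-/

namespace Pool.Agent.Helper22.BU

open Pool.Agent.Helper21.Toric Finset

/-- The set of those old vertices that occur in a set of old vertices and the new vertex
`Fin.last m`. -/
def old {m : ℕ} (σ : Finset (Fin (m + 1))) : Finset (Fin m) :=
  Finset.univ.filter fun i => i.castSucc ∈ σ

/-- The complex of the blow-up at the fixed point of the facet `τ` (stellar subdivision of `τ`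
with the new vertex `Fin.last m`): its faces are the faces of `K` not containing `τ`, and the
sets consisting of the new vertex and of a set of old vertices properly contained in `τ`. -/
def stack {m : ℕ} (K : Set (Finset (Fin m))) (τ : Finset (Fin m)) :
    Set (Finset (Fin (m + 1))) :=
  {σ | old σ ∈ K ∧ ¬ τ ⊆ old σ ∧ (Fin.last m ∈ σ → old σ ⊆ τ)}

/-- facets of a complex of dimension `n - 1` -/
def IsFacet (n : ℕ) {m : ℕ} (K : Set (Finset (Fin m))) (τ : Finset (Fin m)) : Prop :=
  τ ∈ K ∧ τ.card = n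

/-- the neighbours of a vertex -/
def nbr {m : ℕ} (K : Set (Finset (Fin m))) (v : Fin m) : Set (Fin m) :=
  {w | w ≠ v ∧ ({v, w} : Finset (Fin m)) ∈ K}

/-- the degree of a vertex -/
noncomputable def deg {m : ℕ} (K : Set (Finset (Fin m))) (v : Fin m) : ℕ := (nbr K v).ncard

/-- the number of vertices of degree `n` -/
noncomputable def num (n : ℕ) {m : ℕ} (K : Set (Finset (Fin m))) : ℕ := {v | deg K v = n}.ncard

lemma mem_old {m : ℕ} {σ : Finset (Fin (m + 1))} {i : Fin m} : i ∈ old σ ↔ i.castSucc ∈ σ := by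
  simp [old]

lemma old_map {m : ℕ} (ρ : Finset (Fin m)) : old (ρ.map Fin.castSuccEmb) = ρ := by
  ext i; simp [mem_old]

lemma old_insert {m : ℕ} (ρ : Finset (Fin m)) :
    old (insert (Fin.last m) (ρ.map Fin.castSuccEmb)) = ρ := by
  ext i
  simp [mem_old]

lemma last_notMem_map {m : ℕ} (ρ : Finset (Fin m)) : Fin.last m ∉ ρ.map Fin.castSuccEmb := by
  simp

lemma eq_of_last_notMem {m : ℕ} {σ : Finset (Fin (m + 1))} (h : Fin.last m ∉ σ) :
    σ = (old σ).map Fin.castSuccEmb := by
  ext i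
  induction i using Fin.lastCases with
  | last => simp [h]
  | cast i => simp [mem_old]

lemma eq_of_last_mem {m : ℕ} {σ : Finset (Fin (m + 1))} (h : Fin.last m ∈ σ) :
    σ = insert (Fin.last m) ((old σ).map Fin.castSuccEmb) := by
  ext i
  induction i using Fin.lastCases with
  | last => simp [h]
  | cast i => simp [mem_old]

/-- A fan is determined by uniqueness of nonnegative representations. -/
def mkFan {n m : ℕ} (ray : Fin m → Fin n → ℤ) (faces : Set (Finset (Fin m)))
    (down : ∀ σ ∈ faces, ∀ τ, τ ⊆ σ → τ ∈ faces) (vertex : ∀ i, {i} ∈ faces)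
    (he : ∅ ∈ faces)
    (smooth : ∀ σ ∈ faces, ∃ (b : Module.Basis (Fin n) ℤ (Fin n → ℤ)) (f : Fin m → Fin n),
      Set.InjOn f σ ∧ ∀ i ∈ σ, b (f i) = ray i)
    (uni : ∀ σ ∈ faces, ∀ τ ∈ faces, ∀ c d : Fin m → ℝ, (∀ i, 0 ≤ c i) → (∀ i, i ∉ σ → c i = 0) →
      (∀ i, 0 ≤ d i) → (∀ i, i ∉ τ → d i = 0) → vec ray c = vec ray d → c = d)
    (comp : ∀ v : Fin n → ℝ, ∃ σ ∈ faces, ∃ c : Fin m → ℝ, (∀ i, 0 ≤ c i) ∧
      (∀ i, i ∉ σ → c i = 0) ∧ v = vec ray c) : Fan n m where
  ray := ray
  faces := faces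
  empty_mem := he
  down_closed := down
  vertex_mem := vertex
  smooth := smooth
  inter := by
    intro σ hσ τ hτ
    ext v
    rw [Set.mem_inter_iff, mem_realCone, mem_realCone, mem_realCone]
    constructor
    · rintro ⟨⟨c, hc, hcσ, hv⟩, d, hd, hdτ, hw⟩
      have h := uni σ hσ τ hτ c d hc hcσ hd hdτ (hv.symm.trans hw)
      subst h
      refine ⟨c, hc, ?_, hv⟩
      intro i hi
      rw [Finset.mem_inter, not_and_or] at hi
      rcases hi with h | h
      · exact hcσ i h
      · exact hdτ i h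
    · rintro ⟨c, hc, hcσ, hv⟩
      exact ⟨⟨c, hc, fun i hi => hcσ i (fun h => hi (Finset.mem_inter.1 h).1), hv⟩,
        c, hc, fun i hi => hcσ i (fun h => hi (Finset.mem_inter.1 h).2), hv⟩
  complete := by
    intro v
    obtain ⟨σ, hσ, c, hc, hcσ, hv⟩ := comp v
    exact ⟨σ, hσ, (mem_realCone _ _ _).2 ⟨c, hc, hcσ, hv⟩⟩

end Pool.Agent.Helper22.BU
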