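import Pool.Agent.Helper22.BU.Blow

/-!
The fan of projective space, and fans with any number of rays.
-/

namespace Pool.Agent.Helper22.BU

open Pool.Agent.Helper21.Toric Finset

variable {n : ℕ}

/-- rays of projective space -/
def pray (n : ℕ) : Fin (n + 1) → Fin n → ℤ :=
  Fin.snoc (α := fun _ => Fin n → ℤ) (fun i => Pi.single i 1) (fun _ => -1)

@[simp] lemma pray_cast (i : Fin n) : pray n i.castSucc = Pi.single i 1 := by simp [pray]
@[simp] lemma pray_last : pray n (Fin.last n) = fun _ => -1 := by simp [pray]

lemma vec_pray (c : Fin (n + 1) → ℝ) (j : Fin n) :
    vec (pray n) c j = c j.castSucc - c (Fin.last n) := by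
  simp only [vec]
  rw [Fin.sum_univ_castSucc]
  simp only [pray_cast, pray_last, Pi.single_apply]
  push_cast
  rw [Finset.sum_eq_single j]
  · simp
    ring
  · intro i _ hi
    rw [if_neg (Ne.symm hi)]
    simp
  · intro h; exact absurd (Finset.mem_univ j) h

/-- the reflection carrying a standard basis vector to `(-1, ..., -1)` -/
def refl (k : Fin n) : (Fin n → ℤ) ≃ₗ[ℤ] (Fin n → ℤ) :=
  LinearEquiv.ofInvolutive
    { toFun := fun x j => if j = k then - x k else x j - x k
      map_add' := by
        intro x y; ext j; simp only [Pi.add_apply]; split_ifs <;> ring
      map_smul' := by
        intro a x; ext j; simp only [Pi.smul_apply, smul_eq_mul, RingHom.id_apply]; split_ifs <;> ring }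
    (by
      intro x
      ext j
      simp only [LinearMap.coe_mk, AddHom.coe_mk, if_true]
      split_ifs with h
      · rw [h]; ring
      · ring)

lemma refl_apply (k : Fin n) (x : Fin n → ℤ) (j : Fin n) :
    refl k x j = if j = k then - x k else x j - x k := rfl

/-- The fan of projective space of dimension `n`. -/
def PN (n : ℕ) (hn : 1 ≤ n) : Fan n (n + 1) :=
  mkFan (pray n) {σ | σ ≠ Finset.univ}
    (by
      intro σ hσ τ hτ h
      apply hσ
      rw [h] at hτ
      exact Finset.univ_subset_iff.1 hτ)
    (by
      intro i h
      have := congrArg Finset.card h
      rw [Finset.card_singleton, Finset.card_univ, Fintype.card_fin] at this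
      omega)
    (by
      intro h
      have := congrArg Finset.card h
      rw [Finset.card_empty, Finset.card_univ, Fintype.card_fin] at this
      omega)
    (by
      intro σ hσ
      have hex : ∃ k, k ∉ σ := by
        by_contra hcon
        push Not at hcon
        exact hσ (Finset.eq_univ_iff_forall.2 hcon)
      obtain ⟨k, hk⟩ := hex
      induction k using Fin.lastCases with
      | last =>
        refine ⟨Pi.basisFun ℤ (Fin n), Fin.snoc (α := fun _ => Fin n) id ⟨0, by omega⟩, ?_, ?_⟩
        · intro i hi j hj hij
          induction i using Fin.lastCases with
          | last => exact absurd hi hk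
          | cast i =>
            induction j using Fin.lastCases with
            | last => exact absurd hj hk
            | cast j =>
              simp only [Fin.snoc_castSucc, id_eq] at hij
              rw [hij]
        · intro i hi
          induction i using Fin.lastCases with
          | last => exact absurd hi hk
          | cast i => simp
      | cast k =>
        refine ⟨(Pi.basisFun ℤ (Fin n)).map (refl k), Fin.snoc (α := fun _ => Fin n) id k, ?_, ?_⟩
        · intro i hi j hj hij
          induction i using Fin.lastCases with
          | last =>
            induction j using Fin.lastCases with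
            | last => rfl
            | cast j =>
              simp only [Fin.snoc_castSucc, Fin.snoc_last, id_eq] at hij
              rw [hij] at hk
              exact absurd hj hk
          | cast i =>
            induction j using Fin.lastCases with
            | last =>
              simp only [Fin.snoc_castSucc, Fin.snoc_last, id_eq] at hij
              rw [← hij] at hk
              exact absurd hi hk
            | cast j =>
              simp only [Fin.snoc_castSucc, id_eq] at hij
              rw [hij]
        · intro i hi
          rw [Module.Basis.map_apply, Pi.basisFun_apply]
          ext j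
          rw [refl_apply]
          induction i using Fin.lastCases with
          | last =>
            simp only [Fin.snoc_last, pray_last, Pi.single_apply, if_true]
            split_ifs <;> simp
          | cast i =>
            have hik : k ≠ i := fun h => hk (h ▸ hi)
            simp only [Fin.snoc_castSucc, id_eq, pray_cast, Pi.single_apply, if_neg hik]
            split_ifs with h1 h2 h2
            · exact absurd (h1.symm.trans h2) hik
            · simp
            · simp
            · simp)
    (by
      intro σ hσ τ hτ c d hc hcσ hd hdτ h
      have hex : ∀ ρ : Finset (Fin (n + 1)), ρ ≠ Finset.univ → ∃ k, k ∉ ρ := by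
        intro ρ hρ
        by_contra hcon
        push Not at hcon
        exact hρ (Finset.eq_univ_iff_forall.2 hcon)
      have hcoord : ∀ i, c i - c (Fin.last n) = d i - d (Fin.last n) := by
        intro i
        induction i using Fin.lastCases with
        | last => ring
        | cast i =>
          have := congrFun h i
          rwa [vec_pray, vec_pray] at this
      obtain ⟨i, hi⟩ := hex σ hσ
      obtain ⟨j, hj⟩ := hex τ hτ
      have h1 := hcoord i
      have h2 := hcoord j
      rw [hcσ i hi] at h1
      rw [hdτ j hj] at h2
      have h3 := hd i
      have h4 := hc j
      have hl : c (Fin.last n) = d (Fin.last n) := by linarith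
      ext k
      have := hcoord k
      rw [hl] at this
      linarith)
    (by
      intro v
      let x : Fin (n + 1) → ℝ := Fin.snoc (α := fun _ => ℝ) v 0
      obtain ⟨i0, _, hmin⟩ := Finset.exists_min_image Finset.univ x ⟨0, Finset.mem_univ _⟩
      refine ⟨Finset.univ.erase i0, ?_, fun i => x i - x i0, ?_, ?_, ?_⟩
      · intro h
        have := Finset.mem_univ i0
        rw [← h] at this
        exact Finset.notMem_erase i0 _ this
      · intro i
        have := hmin i (Finset.mem_univ i)
        linarith
      · intro i hi
        have : i = i0 := by
          by_contra hne
          exact hi (Finset.mem_erase.2 ⟨hne, Finset.mem_univ i⟩)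
        rw [this]
        exact sub_self _
      · ext j
        rw [vec_pray]
        simp only [x, Fin.snoc_castSucc, Fin.snoc_last]
        ring)

/-- There are complete nonsingular fans with any number of rays. -/
lemma exists_fan (hn : 2 ≤ n) (k : ℕ) : Nonempty (Fan n (n + 1 + k)) := by
  induction k with
  | zero => exact ⟨PN n (by omega)⟩
  | succ k ih =>
    obtain ⟨X⟩ := ih
    obtain ⟨τ, hτ, _, hc⟩ := exists_facet X.empty_mem
    exact ⟨Blow X τ ⟨hτ, hc⟩ hn⟩

end Pool.Agent.Helper22.BU
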