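import Pool.Agent.Helper22.BU.Comb
import Pool.Agent.Helper22.BU.PN
import Pool.Agent.Helper21.Assemble

/-!
Which point blow-ups of toric manifolds have rigid complexes.
-/

namespace Pool.Agent.Helper22.BU

open Pool.Agent.Helper21.Toric Finset

variable {n m : ℕ}

/-- If the complex of a double point blow-up is rigid then it has `n + 3` vertices. -/
theorem double_of_rigid (hn : 3 ≤ n) (X : Fan n m) {τ : Finset (Fin m)} {σ : Finset (Fin (m + 1))}
    (hτ : IsFacet n X.faces τ) (hσ : IsFacet n (stack X.faces τ) σ)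
    (hR : Rigid (stack (stack X.faces τ) σ)) : m = n + 1 := by
  have hn2 : 2 ≤ n := by omega
  have hσ' : IsFacet n (Blow X τ hτ hn2).faces σ := hσ
  have hall : ∀ (τ' : Finset (Fin m)) (σ' : Finset (Fin (m + 1))), IsFacet n X.faces τ' →
      IsFacet n (stack X.faces τ') σ' →
      num n (stack (stack X.faces τ') σ') = num n (stack (stack X.faces τ) σ) := by
    intro τ' σ' h1 h2
    have h2' : IsFacet n (Blow X τ' h1 hn2).faces σ' := h2
    have h3 := hR.2 n (Blow (Blow X τ hτ hn2) σ hσ' hn2) (ComplexIso.refl _) n _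
      (Blow (Blow X τ' h1 hn2) σ' h2' hn2) (gradedIso_double X hn2 hτ h1 hσ' h2')
    exact num_iso h3
  apply eq_simplex X hn
  intro τ1 τ2 h1 h2 hne
  have hne1 : τ1.Nonempty := by rw [← Finset.card_pos, h1.2]; omega
  obtain ⟨v0, hv0⟩ := hne1
  have e1 := hall τ1 _ h1 (isFacet_map h1 h2 hne)
  have e2 := hall τ1 _ h1 (isFacet_new X.down_closed h1 hv0)
  rw [num_old X hn h1 h2 hne] at e1
  rw [num_new X hn h1 hv0] at e2
  have e3 := cnt_union (n := n) X.faces τ1 τ2
  omega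

/-- Single point blow-ups. -/
theorem single_of_rigid (hn : 3 ≤ n) (X : Fan n m) (hdeg : ∀ v, deg X.faces v ≠ n)
    {τ τ' : Finset (Fin m)} (hτ : IsFacet n X.faces τ) (hτ' : IsFacet n X.faces τ')
    (hR : Rigid (stack X.faces τ)) :
    ∃ φ : Fin m ≃ Fin m, (∀ σ : Finset (Fin m), σ ∈ X.faces ↔ σ.map φ.toEmbedding ∈ X.faces) ∧
      τ'.map φ.toEmbedding = τ := by
  have hn2 : 2 ≤ n := by omega
  have h3 : ComplexIso (stack X.faces τ') (stack X.faces τ) :=
    hR.2 n (Blow X τ hτ hn2) (ComplexIso.refl _) n _ (Blow X τ' hτ' hn2) (gradedIso_blow X hτ hτ' hn2)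
  obtain ⟨ψ, hψ⟩ := h3
  have hlast : ψ (Fin.last m) = Fin.last m := by
    have h4 : deg (stack X.faces τ) (ψ (Fin.last m)) = n := by
      rw [deg, deg_iso ψ hψ, Set.ncard_image_of_injective _ ψ.injective]
      exact deg_last X.down_closed hτ' hn
    rcases Fin.eq_castSucc_or_eq_last (ψ (Fin.last m)) with ⟨w, hw⟩ | h5
    · rw [hw, deg_cast X.down_closed hτ hn] at h4
      have h6 := le_deg X hn w
      have h7 := hdeg w
      split_ifs at h4 <;> omega
    · exact h5
  have hcast : ∀ i : Fin m, ∃ j : Fin m, ψ i.castSucc = j.castSucc := by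
    intro i
    rcases Fin.eq_castSucc_or_eq_last (ψ i.castSucc) with ⟨w, hw⟩ | h5
    · exact ⟨w, hw⟩
    · rw [← hlast] at h5
      exact absurd (ψ.injective h5) (Fin.castSucc_lt_last i).ne
  choose f hf using hcast
  have hfinj : Function.Injective f := by
    intro i j hij
    have h1 : ψ i.castSucc = ψ j.castSucc := by rw [hf, hf, hij]
    exact Fin.castSucc_injective _ (ψ.injective h1)
  let φ : Fin m ≃ Fin m := Equiv.ofBijective f (Finite.injective_iff_bijective.1 hfinj)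
  have hφ : ∀ i, (φ i).castSucc = ψ i.castSucc := fun i => (hf i).symm
  have hmap : ∀ σ : Finset (Fin m), (σ.map Fin.castSuccEmb).map ψ.toEmbedding =
      (σ.map φ.toEmbedding).map Fin.castSuccEmb := by
    intro σ
    rw [Finset.map_map, Finset.map_map]
    congr 1
    ext i
    exact congrArg Fin.val (hφ i).symm
  have hττ : τ'.map φ.toEmbedding = τ := by
    have h1 := deg_iso ψ hψ (Fin.last m)
    rw [hlast, nbr_last X.down_closed hτ hn, nbr_last X.down_closed hτ' hn] at h1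
    ext j
    constructor
    · intro hj
      obtain ⟨i, hi, rfl⟩ := Finset.mem_map.1 hj
      have h2 : ψ i.castSucc ∈ Fin.castSucc '' (τ : Set (Fin m)) := by
        rw [h1]
        exact ⟨i.castSucc, ⟨i, hi, rfl⟩, rfl⟩
      obtain ⟨k, hk, hk2⟩ := h2
      rw [← hφ] at hk2
      have := Fin.castSucc_injective _ hk2
      rw [this] at hk
      exact hk
    · intro hj
      have h2 : j.castSucc ∈ ψ '' (Fin.castSucc '' (τ' : Set (Fin m))) := by
        rw [← h1]
        exact ⟨j, hj, rfl⟩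
      obtain ⟨_, ⟨i, hi, rfl⟩, h3⟩ := h2
      rw [← hφ] at h3
      rw [← Fin.castSucc_injective _ h3]
      exact Finset.mem_map_of_mem _ hi
  refine ⟨φ, ?_, hττ⟩
  intro σ
  have hsub : τ' ⊆ σ ↔ τ ⊆ σ.map φ.toEmbedding := by
    rw [← hττ, Finset.map_subset_map]
  by_cases hs : τ' ⊆ σ
  · have h4 : ∀ {K : Set (Finset (Fin m))} {τ0 σ0 : Finset (Fin m)}, IsFacet n K τ0 →
        (∀ ρ ∈ K, ρ.card ≤ n) → τ0 ⊆ σ0 → (σ0 ∈ K ↔ σ0 = τ0) := by
      intro K τ0 σ0 h0 hc hs0
      constructor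
      · intro h
        exact (Finset.eq_of_subset_of_card_le hs0 (by rw [h0.2]; exact hc _ h)).symm
      · rintro rfl; exact h0.1
    rw [h4 hτ' (fun ρ hρ => card_le hρ) hs, h4 hτ (fun ρ hρ => card_le hρ) (hsub.1 hs), ← hττ]
    exact (Finset.map_injective φ.toEmbedding).eq_iff.symm
  · have hs' : ¬ τ ⊆ σ.map φ.toEmbedding := fun h => hs (hsub.2 h)
    have h5 : ∀ (T S : Finset (Fin m)), ¬ T ⊆ S → (S ∈ X.faces ↔ S.map Fin.castSuccEmb ∈ stack X.faces T) := by
      intro T S hTS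
      constructor
      · intro h
        refine ⟨?_, ?_, ?_⟩
        · rw [old_map]; exact h
        · rw [old_map]; exact hTS
        · intro h'; exact absurd h' (last_notMem_map _)
      · rintro ⟨h, _, _⟩
        rwa [old_map] at h
    rw [h5 τ' σ hs, h5 τ _ hs', hψ, hmap]

/-- **Main theorem.** -/
theorem main (n : ℕ) (hn : 3 ≤ n) :
    (∀ (m : ℕ) (X : Fan n m) (τ : Finset (Fin m)) (σ : Finset (Fin (m + 1))),
      IsFacet n X.faces τ → IsFacet n (stack X.faces τ) σ →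
      (∃ Z : Fan n (m + 1 + 1), Z.faces = stack (stack X.faces τ) σ) ∧
      (Rigid (stack (stack X.faces τ) σ) ↔ m = n + 1)) ∧
    (∀ (m : ℕ) (X : Fan n m), (∀ v, deg X.faces v ≠ n) → ∀ τ τ' : Finset (Fin m),
      IsFacet n X.faces τ → IsFacet n X.faces τ' → Rigid (stack X.faces τ) →
      ∃ φ : Fin m ≃ Fin m, (∀ σ : Finset (Fin m), σ ∈ X.faces ↔ σ.map φ.toEmbedding ∈ X.faces) ∧
        τ'.map φ.toEmbedding = τ) ∧
    (∀ r : ℕ, 3 ≤ r → ((∀ Z : Fan n (n + r), Rigid Z.faces) ↔ r = 3)) := by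
  have hn2 : 2 ≤ n := by omega
  refine ⟨?_, ?_, ?_⟩
  · intro m X τ σ hτ hσ
    have hσ' : IsFacet n (Blow X τ hτ hn2).faces σ := hσ
    refine ⟨⟨Blow (Blow X τ hτ hn2) σ hσ' hn2, rfl⟩, double_of_rigid hn X hτ hσ, ?_⟩
    intro hm
    subst hm
    exact rigid_add_three n (Blow (Blow X τ hτ hn2) σ hσ' hn2)
  · intro m X hdeg τ τ' hτ hτ' hR
    exact single_of_rigid hn X hdeg hτ hτ' hR
  · intro r hr
    constructor
    · intro h
      by_contra hne
      obtain ⟨s, rfl⟩ : ∃ s, r = s + 4 := ⟨r - 4, by omega⟩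
      obtain ⟨X⟩ := exists_fan hn2 (s + 1)
      obtain ⟨τ, hτ, _, hc⟩ := exists_facet X.empty_mem
      have hτ' : IsFacet n X.faces τ := ⟨hτ, hc⟩
      obtain ⟨σ, hσ, _, hc'⟩ := exists_facet (Blow X τ hτ' hn2).empty_mem
      have hσ' : IsFacet n (Blow X τ hτ' hn2).faces σ := ⟨hσ, hc'⟩
      have hcast : n + 1 + (s + 1) + 1 + 1 = n + (s + 4) := by ring
      have h2 : ∀ k, k = n + (s + 4) → ∀ Z : Fan n k, Rigid Z.faces := by
        rintro k rfl Z
        exact h Z
      have h1 := double_of_rigid hn X hτ' hσ' (h2 _ hcast (Blow (Blow X τ hτ' hn2) σ hσ' hn2))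
      omega
    · rintro rfl Z
      exact rigid_add_three n Z

end Pool.Agent.Helper22.BU
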