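import Pool.Agent.Helper22.BU.Defs
import Pool.Agent.Helper21.Transport

/-!
The facets of a complete nonsingular fan are connected through ridges; all facet monomials have the
same class in the cohomology ring.
-/

namespace Pool.Agent.Helper22.BU

open Pool.Agent.Helper21.Toric Finset

variable {n m : ℕ}

/-- adjacent facets -/
def Adj (n : ℕ) (K : Set (Finset (Fin m))) (σ τ : Finset (Fin m)) : Prop :=
  ∃ (ρ : Finset (Fin m)) (k l : Fin m), k ∉ ρ ∧ l ∉ ρ ∧ k ≠ l ∧ ρ.card + 1 = n ∧
    σ = insert k ρ ∧ τ = insert l ρ ∧ insert k ρ ∈ K ∧ insert l ρ ∈ K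

/-- the class of a monomial -/
noncomputable def mon (X : Fan n m) (σ : Finset (Fin m)) : Coh X :=
  Ideal.Quotient.mk (relIdeal X) (∏ i ∈ σ, MvPolynomial.X i)

lemma mon_nonface (X : Fan n m) {σ : Finset (Fin m)} (h : σ ∉ X.faces) : mon X σ = 0 := by
  rw [mon, Ideal.Quotient.eq_zero_iff_mem]
  exact Ideal.mem_sup_left (Ideal.subset_span ⟨σ, h, rfl⟩)

lemma mon_adj (X : Fan n m) {σ τ : Finset (Fin m)} (h : Adj n X.faces σ τ) : mon X σ = mon X τ := by
  obtain ⟨ρ, k, l, hk, hl, hkl, hc, rfl, rfl, hkf, hlf⟩ := h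
  have hρ : ρ ∈ X.faces := X.down_closed _ hkf _ (Finset.subset_insert _ _)
  obtain ⟨u, a, b, hu, ha, hb, hab⟩ := ridge hρ hc
  have hlin : Ideal.Quotient.mk (relIdeal X)
      (∑ i, MvPolynomial.C (ipz u (X.ray i)) * MvPolynomial.X i) = 0 := by
    rw [Ideal.Quotient.eq_zero_iff_mem]
    exact linear_mem X u
  have h1 : mon X ρ * Ideal.Quotient.mk (relIdeal X)
      (∑ i, MvPolynomial.C (ipz u (X.ray i)) * MvPolynomial.X i) = 0 := by
    rw [hlin, mul_zero]
  rw [map_sum, Finset.mul_sum] at h1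
  have hterm : ∀ i, mon X ρ * Ideal.Quotient.mk (relIdeal X)
      (MvPolynomial.C (ipz u (X.ray i)) * MvPolynomial.X i) =
      (if i = a then mon X (insert a ρ) else 0) - (if i = b then mon X (insert b ρ) else 0) := by
    intro i
    have hmon : ∀ j, j ∉ ρ → mon X ρ * Ideal.Quotient.mk (relIdeal X) (MvPolynomial.X j) =
        mon X (insert j ρ) := by
      intro j hj
      rw [mon, mon, ← map_mul, Finset.prod_insert hj, mul_comm]
    have haρ : a ∉ ρ := by
      intro h; rw [hu a h] at ha; norm_num at ha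
    have hbρ : b ∉ ρ := by
      intro h; rw [hu b h] at hb; norm_num at hb
    have hne : a ≠ b := by
      rintro rfl; rw [ha] at hb; norm_num at hb
    by_cases hi : i ∈ ρ
    · have h2 : i ≠ a := fun h => haρ (h ▸ hi)
      have h3 : i ≠ b := fun h => hbρ (h ▸ hi)
      rw [hu i hi, if_neg h2, if_neg h3]
      simp
    · by_cases hia : i = a
      · subst hia
        rw [if_pos rfl, if_neg hne, ha]
        have h4 := hmon i hi
        simp only [map_one, one_mul, h4, sub_zero]
      · by_cases hib : i = b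
        · subst hib
          rw [if_neg hia, if_pos rfl, hb]
          have h4 := hmon i hi
          simp only [map_neg, map_one, neg_mul, one_mul, zero_sub]
          exact (mul_neg _ _).trans (congrArg _ h4)
        · rw [if_neg hia, if_neg hib, sub_zero, map_mul, mul_left_comm, hmon i hi,
            mon_nonface, mul_zero]
          intro h
          rcases (hab i hi).1 h with h | h
          · exact hia h
          · exact hib h
  simp_rw [hterm] at h1
  rw [Finset.sum_sub_distrib] at h1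
  simp only [Finset.sum_ite_eq', Finset.mem_univ, if_true] at h1
  have h2 : mon X (insert a ρ) = mon X (insert b ρ) := sub_eq_zero.1 h1
  rcases (hab k hk).1 hkf with hk' | hk' <;> rcases (hab l hl).1 hlf with hl' | hl'
  · exact absurd (hk'.trans hl'.symm) hkl
  · rw [hk', hl', h2]
  · rw [hk', hl', h2]
  · exact absurd (hk'.trans hl'.symm) hkl

/-- real coordinates with respect to a facet -/
lemma exists_coord (X : Fan n m) {τ : Finset (Fin m)} (hτ : IsFacet n X.faces τ) (w : Fin n → ℝ) :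
    ∃ b : Fin m → ℝ, (∀ i, i ∉ τ → b i = 0) ∧ w = vec X.ray b := by
  obtain ⟨σ, hσ, hsub, b, hb, _, hw⟩ := ext_face hτ.1 w
  have : σ = τ := (Finset.eq_of_subset_of_card_le hsub (by rw [hτ.2]; exact card_le hσ)).symm
  subst this
  exact ⟨b, hb, hw⟩

lemma continuous_ipr (u : Fin n → ℤ) : Continuous (ipr u) := by
  unfold ipr
  fun_prop

/-- the cone of a facet and its interior in terms of dual vectors -/
lemma exists_duals (X : Fan n m) {τ : Finset (Fin m)} (hτ : IsFacet n X.faces τ) :
    ∃ u : Fin m → Fin n → ℤ, (∀ i ∈ τ, ∀ j ∈ τ, ipz (u i) (X.ray j) = if i = j then 1 else 0) ∧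
      ∀ c : Fin m → ℝ, (∀ i, i ∉ τ → c i = 0) → ∀ i ∈ τ, ipr (u i) (vec X.ray c) = c i := by
  have h : ∀ i, ∃ u : Fin n → ℤ, i ∈ τ → ∀ j ∈ τ, ipz u (X.ray j) = if i = j then 1 else 0 := by
    intro i
    by_cases hi : i ∈ τ
    · obtain ⟨u, hu⟩ := exists_dual hτ.1 hi
      exact ⟨u, fun _ => hu⟩
    · exact ⟨0, fun h => absurd h hi⟩
  choose u hu using h
  refine ⟨u, fun i hi => hu i hi, ?_⟩
  intro c hc i hi
  rw [ipr_vec, Finset.sum_eq_single i]
  · rw [hu i hi i hi]; simp
  · intro j _ hj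
    by_cases hjτ : j ∈ τ
    · rw [hu i hi j hjτ, if_neg (Ne.symm hj)]; simp
    · rw [hc j hjτ, zero_mul]
  · intro h; exact absurd (Finset.mem_univ i) h

lemma isClosed_cone (X : Fan n m) {τ : Finset (Fin m)} (hτ : IsFacet n X.faces τ) :
    IsClosed (realCone X.ray τ) := by
  obtain ⟨u, hu, hu'⟩ := exists_duals X hτ
  have h : realCone X.ray τ = ⋂ i ∈ τ, {v | 0 ≤ ipr (u i) v} := by
    ext v
    simp only [Set.mem_iInter, Set.mem_ofPred_eq]
    constructor
    · intro hv i hi
      rw [mem_realCone] at hv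
      obtain ⟨c, hc, hcτ, rfl⟩ := hv
      rw [hu' c hcτ i hi]
      exact hc i
    · intro hv
      obtain ⟨b, hb, rfl⟩ := exists_coord X hτ v
      rw [mem_realCone]
      refine ⟨b, ?_, hb, rfl⟩
      intro i
      by_cases hi : i ∈ τ
      · have := hv i hi
        rwa [hu' b hb i hi] at this
      · rw [hb i hi]
  rw [h]
  exact isClosed_biInter fun i _ => isClosed_le continuous_const (continuous_ipr (u i))

lemma vec_ind1 (X : Fan n m) (τ : Finset (Fin m)) :
    vec X.ray (ind1 τ) ∈ realCone X.ray τ := by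
  rw [mem_realCone]
  refine ⟨ind1 τ, ?_, ?_, rfl⟩
  · intro i; simp only [ind1]; split_ifs <;> norm_num
  · intro i hi; simp [ind1, hi]

/-- a generic point in the interior of a facet cone -/
lemma exists_generic (X : Fan n m) {τ : Finset (Fin m)} (hτ : IsFacet n X.faces τ)
    (p : Fin n → ℝ) :
    ∃ q ∈ realCone X.ray τ, ∀ ρ : Finset (Fin m), ρ.card + 2 ≤ n →
      q ∉ Submodule.span ℝ (insert p ((fun i => fun j => (X.ray i j : ℝ)) '' (ρ : Set (Fin m)))) := by
  classical
  obtain ⟨u, hu, hu'⟩ := exists_duals X hτ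
  let U : Set (Fin n → ℝ) := ⋂ i ∈ τ, {v | 0 < ipr (u i) v}
  have hUo : IsOpen U := by
    apply Set.Finite.isOpen_biInter (Finset.finite_toSet τ)
    intro i _
    exact isOpen_lt continuous_const (continuous_ipr (u i))
  have hUne : U.Nonempty := by
    refine ⟨vec X.ray (ind1 τ), ?_⟩
    simp only [U, Set.mem_iInter, Set.mem_ofPred_eq]
    intro i hi
    rw [hu' _ (fun j hj => by simp [ind1, hj]) i hi]
    simp [ind1, hi]
  let W : Finset (Fin m) → Submodule ℝ (Fin n → ℝ) := fun ρ =>
    Submodule.span ℝ (insert p ((fun i => fun j => (X.ray i j : ℝ)) '' (ρ : Set (Fin m))))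
  have hW : ∀ ρ : Finset (Fin m), ρ.card + 2 ≤ n → W ρ ≠ ⊤ := by
    intro ρ hρ htop
    have h2 : (insert p ((fun i => fun j => (X.ray i j : ℝ)) '' (ρ : Set (Fin m)))) =
        ((insert p (ρ.image (fun i => fun j => (X.ray i j : ℝ))) : Finset (Fin n → ℝ)) :
          Set (Fin n → ℝ)) := by
      push_cast
      rfl
    have h1 := finrank_span_finset_le_card (R := ℝ)
      (insert p (ρ.image (fun i => fun j => (X.ray i j : ℝ))) : Finset (Fin n → ℝ))
    have h3 : W ρ = Submodule.span ℝ
        ((insert p (ρ.image (fun i => fun j => (X.ray i j : ℝ))) : Finset (Fin n → ℝ)) :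
          Set (Fin n → ℝ)) := by
      simp only [W]
      rw [h2]
    rw [Set.finrank, ← h3, htop, finrank_top, Module.finrank_fin_fun] at h1
    have h4 := Finset.card_insert_le p (ρ.image (fun i => fun j => (X.ray i j : ℝ)))
    have h5 := Finset.card_image_le (s := ρ) (f := (fun i => fun j => (X.ray i j : ℝ)))
    omega
  have hnull : MeasureTheory.volume (⋃ ρ ∈ {ρ : Finset (Fin m) | ρ.card + 2 ≤ n},
      ((W ρ : Submodule ℝ (Fin n → ℝ)) : Set (Fin n → ℝ))) = 0 := by
    rw [MeasureTheory.measure_biUnion_null_iff (Set.to_countable _)]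
    intro ρ hρ
    exact MeasureTheory.Measure.addHaar_submodule _ _ (hW ρ hρ)
  have hpos : 0 < MeasureTheory.volume U := hUo.measure_pos _ hUne
  have hex : ∃ q ∈ U, q ∉ (⋃ ρ ∈ {ρ : Finset (Fin m) | ρ.card + 2 ≤ n},
      ((W ρ : Submodule ℝ (Fin n → ℝ)) : Set (Fin n → ℝ))) := by
    by_contra hcon
    push Not at hcon
    have : MeasureTheory.volume U ≤ 0 := by
      rw [← hnull]
      exact MeasureTheory.measure_mono hcon
    exact absurd hpos (not_lt.2 this)
  obtain ⟨q, hqU, hq⟩ := hex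
  refine ⟨q, ?_, ?_⟩
  · obtain ⟨b, hb, rfl⟩ := exists_coord X hτ q
    rw [mem_realCone]
    refine ⟨b, ?_, hb, rfl⟩
    intro i
    by_cases hi : i ∈ τ
    · have := Set.mem_iInter₂.1 hqU i hi
      rw [Set.mem_ofPred_eq, hu' b hb i hi] at this
      exact this.le
    · rw [hb i hi]
  · intro ρ hρ hmem
    apply hq
    simp only [Set.mem_iUnion, Set.mem_ofPred_eq]
    exact ⟨ρ, hρ, hmem⟩

/-- The facets are connected through ridges. -/
theorem connected (X : Fan n m) {τ τ' : Finset (Fin m)} (hτ : IsFacet n X.faces τ)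
    (hτ' : IsFacet n X.faces τ') : Relation.ReflTransGen (Adj n X.faces) τ τ' := by
  classical
  by_contra hcon
  set C : Set (Finset (Fin m)) :=
    {σ | IsFacet n X.faces σ ∧ Relation.ReflTransGen (Adj n X.faces) τ σ} with hC
  set D : Set (Finset (Fin m)) :=
    {σ | IsFacet n X.faces σ ∧ ¬ Relation.ReflTransGen (Adj n X.faces) τ σ} with hD
  set p : Fin n → ℝ := vec X.ray (ind1 τ) with hp
  obtain ⟨q, hq, hgen⟩ := exists_generic X hτ' p
  set A : Set (Fin n → ℝ) := ⋃ σ ∈ C, realCone X.ray σ with hA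
  set B : Set (Fin n → ℝ) := ⋃ σ ∈ D, realCone X.ray σ with hB
  have hAc : IsClosed A := (Set.toFinite C).isClosed_biUnion fun σ hσ => isClosed_cone X hσ.1
  have hBc : IsClosed B := (Set.toFinite D).isClosed_biUnion fun σ hσ => isClosed_cone X hσ.1
  have hAB : ∀ v, v ∈ A ∨ v ∈ B := by
    intro v
    obtain ⟨σ, hσ, hv⟩ := X.complete v
    obtain ⟨F, hF, hsub, hFc⟩ := exists_facet hσ
    have hvF : v ∈ realCone X.ray F := by
      rw [mem_realCone] at hv ⊢
      obtain ⟨c, hc, hcσ, hv⟩ := hv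
      exact ⟨c, hc, fun i hi => hcσ i (fun h => hi (hsub h)), hv⟩
    by_cases h : Relation.ReflTransGen (Adj n X.faces) τ F
    · left
      exact Set.mem_biUnion (show F ∈ C from ⟨⟨hF, hFc⟩, h⟩) hvF
    · right
      exact Set.mem_biUnion (show F ∈ D from ⟨⟨hF, hFc⟩, h⟩) hvF
  have hpA : p ∈ A := Set.mem_biUnion (show τ ∈ C from ⟨hτ, Relation.ReflTransGen.refl⟩)
    (vec_ind1 X τ)
  have hqB : q ∈ B := Set.mem_biUnion (show τ' ∈ D from ⟨hτ', hcon⟩) hq
  let γ : ℝ → (Fin n → ℝ) := fun t => (1 - t) • p + t • q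
  have hγ : Continuous γ := by fun_prop
  have hpre : IsPreconnected (Set.Icc (0 : ℝ) 1) := isPreconnected_Icc
  rw [isPreconnected_closed_iff] at hpre
  obtain ⟨t, ht, htA, htB⟩ := hpre (γ ⁻¹' A) (γ ⁻¹' B) (hAc.preimage hγ) (hBc.preimage hγ)
    (fun t _ => hAB (γ t)) ⟨0, by simp, by simpa [γ] using hpA⟩ ⟨1, by simp, by simpa [γ] using hqB⟩
  obtain ⟨σ1, hσ1, hz1⟩ := Set.mem_iUnion₂.1 htA
  obtain ⟨σ2, hσ2, hz2⟩ := Set.mem_iUnion₂.1 htB
  have hne : σ1 ≠ σ2 := by
    rintro rfl
    exact hσ2.2 hσ1.2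
  have hz : γ t ∈ realCone X.ray (σ1 ∩ σ2) := by
    rw [← X.inter σ1 hσ1.1.1 σ2 hσ2.1.1]
    exact ⟨hz1, hz2⟩
  set ρ := σ1 ∩ σ2 with hρ
  have hlt : ρ.card < n := by
    rw [← hσ1.1.2]
    apply Finset.card_lt_card
    refine ⟨Finset.inter_subset_left, ?_⟩
    intro h
    have h1 : σ1 ⊆ σ2 := h.trans Finset.inter_subset_right
    exact hne (Finset.eq_of_subset_of_card_le h1 (by rw [hσ1.1.2, hσ2.1.2]))
  by_cases hcard : ρ.card + 1 = n
  · -- adjacent facets
    apply hσ2.2
    apply hσ1.2.tail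
    have h1 : (σ1 \ ρ).card = 1 := by
      have h3 : (σ1 ∩ σ2).card + 1 = n := hcard
      rw [Finset.card_sdiff_of_subset Finset.inter_subset_left, hσ1.1.2]; omega
    have h2 : (σ2 \ ρ).card = 1 := by
      have h3 : (σ1 ∩ σ2).card + 1 = n := hcard
      rw [Finset.card_sdiff_of_subset Finset.inter_subset_right, hσ2.1.2]; omega
    obtain ⟨k, hk⟩ := Finset.card_eq_one.1 h1
    obtain ⟨l, hl⟩ := Finset.card_eq_one.1 h2
    have hk1 : k ∈ σ1 \ ρ := by rw [hk]; exact Finset.mem_singleton_self k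
    have hl1 : l ∈ σ2 \ ρ := by rw [hl]; exact Finset.mem_singleton_self l
    rw [Finset.mem_sdiff] at hk1 hl1
    have e1 : σ1 = insert k ρ := by
      rw [← Finset.sdiff_union_of_subset (show ρ ⊆ σ1 from Finset.inter_subset_left), hk]
      rfl
    have e2 : σ2 = insert l ρ := by
      rw [← Finset.sdiff_union_of_subset (show ρ ⊆ σ2 from Finset.inter_subset_right), hl]
      rfl
    refine ⟨ρ, k, l, hk1.2, hl1.2, ?_, hcard, e1, e2, ?_, ?_⟩
    · rintro rfl
      apply hk1.2
      rw [hρ]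
      exact Finset.mem_inter.2 ⟨hk1.1, hl1.1⟩
    · rw [← e1]; exact hσ1.1.1
    · rw [← e2]; exact hσ2.1.1
  · -- contradiction with genericity
    have hc2 : ρ.card + 2 ≤ n := by omega
    have hρf : ρ ∈ X.faces := X.down_closed _ hσ1.1.1 _ Finset.inter_subset_left
    rw [mem_realCone] at hz
    obtain ⟨c, hc, hcρ, hz⟩ := hz
    rcases ht.1.eq_or_lt with h0 | h0
    · -- t = 0
      have h1 : vec X.ray c = vec X.ray (ind1 τ) := by
        rw [← hz, ← h0]; simp [γ, hp]
      have h2 : c = ind1 τ := uniq hρf hτ.1 hc hcρ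
        (fun i => by simp only [ind1]; split_ifs <;> norm_num) (fun i hi => by simp [ind1, hi]) h1
      have h3 : τ ⊆ ρ := by
        intro i hi
        by_contra hiρ
        have := hcρ i hiρ
        rw [h2] at this
        simp [ind1, hi] at this
      have := Finset.card_le_card h3
      rw [hτ.2] at this
      omega
    · apply hgen ρ hc2
      have h1 : q = t⁻¹ • (vec X.ray c) - (t⁻¹ * (1 - t)) • p := by
        rw [← hz]
        simp only [γ]
        rw [smul_add, smul_smul, smul_smul, inv_mul_cancel₀ h0.ne', one_smul]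
        abel
      rw [h1]
      apply Submodule.sub_mem
      · apply Submodule.smul_mem
        have h2 : vec X.ray c = ∑ i ∈ ρ, c i • (fun j => (X.ray i j : ℝ)) := by
          ext j
          simp only [vec, Finset.sum_apply, Pi.smul_apply, smul_eq_mul]
          symm
          apply Finset.sum_subset (Finset.subset_univ ρ)
          intro i _ hi
          rw [hcρ i hi, zero_mul]
        rw [h2]
        apply Submodule.sum_mem
        intro i hi
        apply Submodule.smul_mem
        apply Submodule.subset_span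
        exact Set.mem_insert_of_mem _ ⟨i, hi, rfl⟩
      · apply Submodule.smul_mem
        apply Submodule.subset_span
        exact Set.mem_insert _ _

/-- All facet monomials have the same class: the class of a point. -/
theorem mon_eq (X : Fan n m) {τ τ' : Finset (Fin m)} (hτ : IsFacet n X.faces τ)
    (hτ' : IsFacet n X.faces τ') : mon X τ = mon X τ' := by
  have h := connected X hτ hτ'
  induction h with
  | refl => rfl
  | @tail b c h1 h2 ih =>
    have hb : IsFacet n X.faces b := by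
      obtain ⟨ρ, k, l, hk, hl, _, hc, e1, e2, hk', hl'⟩ := h2
      rw [e1]
      exact ⟨hk', by rw [Finset.card_insert_of_notMem hk, hc]⟩
    exact (ih hb).trans (mon_adj X h2)

end Pool.Agent.Helper22.BU
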