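import Pool.Agent.Helper22.BU.Blow
import Pool.Agent.Helper22.BU.Point

/-!
The cohomology ring of the blow-up at a fixed point does not depend on the point.
-/

namespace Pool.Agent.Helper22.BU

open Pool.Agent.Helper21.Toric Finset

variable {n m : ℕ}

section ring
variable {A : Type*} [CommRing A]

lemma prod_add_of_orth {ι : Type*} [DecidableEq ι] (x t : ι → A) (h : ∀ i j, x i * t j = 0)
    {S : Finset ι} (hS : S.Nonempty) : ∏ i ∈ S, (x i + t i) = ∏ i ∈ S, x i + ∏ i ∈ S, t i := by
  induction hS using Finset.Nonempty.cons_induction with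
  | singleton a => simp
  | cons a s ha hs ih =>
    rw [Finset.prod_cons, Finset.prod_cons, Finset.prod_cons, ih]
    obtain ⟨b, hb⟩ := hs
    have h1 : x a * ∏ i ∈ s, t i = 0 := by
      rw [← Finset.mul_prod_erase s t hb, ← mul_assoc, h, zero_mul]
    have h2 : t a * ∏ i ∈ s, x i = 0 := by
      rw [← Finset.mul_prod_erase s x hb, ← mul_assoc, mul_comm (t a), h, zero_mul]
    rw [add_mul, mul_add, mul_add, h1, h2]
    ring

end ring

section
variable (X : Fan n m) {τ : Finset (Fin m)} (hτ : IsFacet n X.faces τ) (hn : 2 ≤ n)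

/-- class of a variable in the ring of the blow-up -/
noncomputable def cl (i : Fin (m + 1)) : Coh (Blow X τ hτ hn) :=
  Ideal.Quotient.mk (relIdeal (Blow X τ hτ hn)) (MvPolynomial.X i)

/-- pull-backs of the old classes -/
noncomputable def px (i : Fin m) : Coh (Blow X τ hτ hn) :=
  cl X hτ hn i.castSucc + if i ∈ τ then cl X hτ hn (Fin.last m) else 0

lemma cl_nonface {σ : Finset (Fin (m + 1))} (h : σ ∉ stack X.faces τ) :
    ∏ i ∈ σ, cl X hτ hn i = 0 := by
  have h1 := mon_nonface (Blow X τ hτ hn) (σ := σ) h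
  rw [mon, map_prod] at h1
  exact h1

lemma cl_linear (u : Fin n → ℤ) :
    ∑ i, (ipz u (X.ray i) : Coh (Blow X τ hτ hn)) * px X hτ hn i = 0 := by
  have h1 : Ideal.Quotient.mk (relIdeal (Blow X τ hτ hn))
      (∑ i, MvPolynomial.C (ipz u ((Blow X τ hτ hn).ray i)) * MvPolynomial.X i) = 0 := by
    rw [Ideal.Quotient.eq_zero_iff_mem]
    exact linear_mem _ u
  rw [Fin.sum_univ_castSucc, Blow_ray, bray_last] at h1
  simp only [bray_cast] at h1
  have h2 : ipz u (∑ i ∈ τ, X.ray i) = ∑ i ∈ τ, ipz u (X.ray i) := by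
    have := ipz_sum u X.ray (fun i => if i ∈ τ then 1 else 0)
    simp only [ite_smul, one_smul, zero_smul, ite_mul, one_mul, zero_mul] at this
    rw [← Finset.sum_filter, ← Finset.sum_filter] at this
    simpa using this
  rw [h2, map_add, map_sum, map_mul] at h1
  have h3 : ∀ i, Ideal.Quotient.mk (relIdeal (Blow X τ hτ hn))
      (MvPolynomial.C (ipz u (X.ray i)) * MvPolynomial.X i.castSucc) =
      (ipz u (X.ray i) : Coh (Blow X τ hτ hn)) * cl X hτ hn i.castSucc := by
    intro i
    rw [map_mul, cl]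
    simp
  have h4 : Ideal.Quotient.mk (relIdeal (Blow X τ hτ hn))
      (MvPolynomial.C (∑ i ∈ τ, ipz u (X.ray i))) =
      ∑ i ∈ τ, (ipz u (X.ray i) : Coh (Blow X τ hτ hn)) := by
    simp
  rw [h4, Finset.sum_congr rfl (fun i _ => h3 i), Finset.sum_mul] at h1
  simp only [px, mul_add, Finset.sum_add_distrib]
  refine Eq.trans ?_ h1
  congr 1
  simp only [mul_ite, mul_zero]
  rw [← Finset.sum_filter]
  simp only [Finset.filter_mem_eq_inter, Finset.univ_inter]
  rfl

lemma last_mul_px (i : Fin m) : cl X hτ hn (Fin.last m) * px X hτ hn i = 0 := by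
  have hout : ∀ j, j ∉ τ → cl X hτ hn (Fin.last m) * px X hτ hn j = 0 := by
    intro j hj
    rw [px, if_neg hj, add_zero]
    have h1 : ({Fin.last m, j.castSucc} : Finset (Fin (m + 1))) ∉ stack X.faces τ := by
      rintro ⟨_, _, h3⟩
      exact hj (h3 (by simp) (by simp [mem_old]))
    have h2 := cl_nonface X hτ hn h1
    rwa [Finset.prod_pair (Fin.castSucc_lt_last j).ne'] at h2
  by_cases hi : i ∈ τ
  · obtain ⟨u, hu⟩ := exists_dual hτ.1 hi
    have h1 : cl X hτ hn (Fin.last m) *
        ∑ j, (ipz u (X.ray j) : Coh (Blow X τ hτ hn)) * px X hτ hn j = 0 := by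
      rw [cl_linear, mul_zero]
    rw [Finset.mul_sum, Finset.sum_eq_single i] at h1
    · rw [hu i hi, if_pos rfl] at h1
      simpa using h1
    · intro j _ hj
      by_cases hjτ : j ∈ τ
      · rw [hu j hjτ, if_neg (Ne.symm hj)]; simp
      · rw [mul_left_comm, hout j hjτ, mul_zero]
    · intro h; exact absurd (Finset.mem_univ i) h
  · exact hout i hi

/-- sign-corrected product formula -/
lemma prod_sub_last {S : Finset (Fin m)} (hS : S.Nonempty) (T : Finset (Fin m)) :
    ∏ i ∈ S, (px X hτ hn i - if i ∈ T then cl X hτ hn (Fin.last m) else 0) =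
      ∏ i ∈ S, px X hτ hn i + ∏ i ∈ S, (if i ∈ T then - cl X hτ hn (Fin.last m) else 0) := by
  rw [← prod_add_of_orth _ _ _ hS]
  · apply Finset.prod_congr rfl
    intro i _
    split_ifs
    · rw [sub_eq_add_neg]
    · rw [sub_zero, add_zero]
  · intro i j
    split_ifs
    · have h := last_mul_px X hτ hn i
      rw [mul_comm] at h
      exact (mul_neg _ _).trans ((congrArg Neg.neg h).trans neg_zero)
    · rw [mul_zero]

lemma px_sub (i : Fin m) : cl X hτ hn i.castSucc =
    px X hτ hn i - if i ∈ τ then cl X hτ hn (Fin.last m) else 0 := by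
  rw [px]; ring

lemma cl_map (S : Finset (Fin m)) :
    ∏ i ∈ S.map Fin.castSuccEmb, cl X hτ hn i = ∏ i ∈ S, cl X hτ hn i.castSucc := by
  rw [Finset.prod_map]; rfl

/-- pull-back of the Stanley-Reisner relations -/
lemma px_nonface {σ : Finset (Fin m)} (h : σ ∉ X.faces) : ∏ i ∈ σ, px X hτ hn i = 0 := by
  have hns : ¬ σ ⊆ τ := fun h' => h (X.down_closed _ hτ.1 _ h')
  obtain ⟨i, hi, hiτ⟩ := Finset.not_subset.1 hns
  have h1 : σ.map Fin.castSuccEmb ∉ stack X.faces τ := by
    rintro ⟨h1, _, _⟩
    rw [old_map] at h1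
    exact h h1
  have h2 := cl_nonface X hτ hn h1
  rw [cl_map] at h2
  simp_rw [px_sub] at h2
  rw [prod_sub_last X hτ hn ⟨i, hi⟩,
    Finset.prod_eq_zero (s := σ) (f := fun j => if j ∈ τ then - cl X hτ hn (Fin.last m) else 0) hi
      (if_neg hiτ), add_zero] at h2
  exact h2

/-- the relation of the exceptional class -/
lemma px_point (hne : τ.Nonempty) :
    ∏ i ∈ τ, px X hτ hn i + (- cl X hτ hn (Fin.last m)) ^ n = 0 := by
  have h1 : τ.map Fin.castSuccEmb ∉ stack X.faces τ := by
    rintro ⟨_, h2, _⟩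
    rw [old_map] at h2
    exact h2 (Finset.Subset.refl _)
  have h2 := cl_nonface X hτ hn h1
  rw [cl_map] at h2
  simp_rw [px_sub] at h2
  rw [prod_sub_last X hτ hn hne] at h2
  have h3 : ∏ i ∈ τ, (if i ∈ τ then - cl X hτ hn (Fin.last m) else 0) =
      (- cl X hτ hn (Fin.last m)) ^ n := by
    rw [Finset.prod_congr rfl (fun i hi => if_pos hi), Finset.prod_const, hτ.2]
  rwa [h3] at h2

/-- the pull-back of rings -/
noncomputable def pull : MvPolynomial (Fin m) ℤ →+* Coh (Blow X τ hτ hn) :=
  MvPolynomial.eval₂Hom (Int.castRingHom _) (px X hτ hn)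

lemma pull_rel (q : MvPolynomial (Fin m) ℤ) (hq : q ∈ relIdeal X) : pull X hτ hn q = 0 := by
  have h : relIdeal X ≤ RingHom.ker (pull X hτ hn) := by
    refine sup_le ?_ ?_
    · rw [Ideal.span_le]
      rintro q ⟨σ, hσ, rfl⟩
      rw [SetLike.mem_coe, RingHom.mem_ker, map_prod]
      have := px_nonface X hτ hn hσ
      simpa [pull] using this
    · rw [Ideal.span_le]
      rintro q ⟨j, rfl⟩
      rw [SetLike.mem_coe, RingHom.mem_ker, map_sum]
      have h1 := cl_linear X hτ hn (Pi.single j 1)
      have h2 : ∀ i, ipz (Pi.single j 1) (X.ray i) = X.ray i j := by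
        intro i
        simp [ipz, Pi.single_apply]
      simp_rw [h2] at h1
      refine Eq.trans (Finset.sum_congr rfl fun i _ => ?_) h1
      rw [map_mul]
      congr 1
      · exact (MvPolynomial.eval₂Hom_C _ _ _).trans (eq_intCast _ _)
      · exact MvPolynomial.eval₂Hom_X' _ _ _
  exact h hq

lemma pull_mon {σ σ' : Finset (Fin m)} (h : mon X σ = mon X σ') :
    ∏ i ∈ σ, px X hτ hn i = ∏ i ∈ σ', px X hτ hn i := by
  rw [mon, mon, Ideal.Quotient.eq] at h
  have h1 := pull_rel X hτ hn _ h
  rw [map_sub, map_prod, map_prod, sub_eq_zero] at h1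
  simpa [pull] using h1

end

section
variable (X : Fan n m) {τ τ' : Finset (Fin m)} (hτ : IsFacet n X.faces τ)
  (hτ' : IsFacet n X.faces τ') (hn : 2 ≤ n)

/-- the substitution -/
noncomputable def subst (τ τ' : Finset (Fin m)) :
    MvPolynomial (Fin (m + 1)) ℤ →ₐ[ℤ] MvPolynomial (Fin (m + 1)) ℤ :=
  MvPolynomial.aeval (Fin.snoc (α := fun _ => MvPolynomial (Fin (m + 1)) ℤ)
    (fun i : Fin m => MvPolynomial.X i.castSucc + (if i ∈ τ' then MvPolynomial.X (Fin.last m) else 0)
      - (if i ∈ τ then MvPolynomial.X (Fin.last m) else 0)) (MvPolynomial.X (Fin.last m)))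

lemma subst_cast (τ τ' : Finset (Fin m)) (i : Fin m) :
    subst τ τ' (MvPolynomial.X i.castSucc) = MvPolynomial.X i.castSucc +
      (if i ∈ τ' then MvPolynomial.X (Fin.last m) else 0)
      - (if i ∈ τ then MvPolynomial.X (Fin.last m) else 0) := by
  simp [subst]

lemma subst_last (τ τ' : Finset (Fin m)) :
    subst τ τ' (MvPolynomial.X (Fin.last m)) = MvPolynomial.X (Fin.last m) := by
  simp [subst]

lemma subst_subst (τ τ' : Finset (Fin m)) (q : MvPolynomial (Fin (m + 1)) ℤ) :
    subst τ' τ (subst τ τ' q) = q := by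
  have h : (subst τ' τ).comp (subst τ τ') = AlgHom.id ℤ _ := by
    apply MvPolynomial.algHom_ext
    intro i
    rw [AlgHom.comp_apply, AlgHom.id_apply]
    induction i using Fin.lastCases with
    | last => rw [subst_last, subst_last]
    | cast i =>
      rw [subst_cast, map_sub, map_add, subst_cast]
      have h1 : ∀ T : Finset (Fin m), subst τ' τ (if i ∈ T then MvPolynomial.X (Fin.last m) else 0) =
          (if i ∈ T then MvPolynomial.X (Fin.last m) else 0) := by
        intro T
        split_ifs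
        · exact subst_last _ _
        · exact map_zero _
      rw [h1, h1]
      ring
  exact congrArg (fun f => f q) h

lemma subst_homog (τ τ' : Finset (Fin m)) {k : ℕ} {q : MvPolynomial (Fin (m + 1)) ℤ}
    (hq : q.IsHomogeneous k) : (subst τ τ' q).IsHomogeneous k := by
  have h := MvPolynomial.IsHomogeneous.aeval (φ := q) (m := k) (n := 1) hq
    (Fin.snoc (α := fun _ => MvPolynomial (Fin (m + 1)) ℤ)
    (fun i : Fin m => MvPolynomial.X i.castSucc + (if i ∈ τ' then MvPolynomial.X (Fin.last m) else 0)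
      - (if i ∈ τ then MvPolynomial.X (Fin.last m) else 0)) (MvPolynomial.X (Fin.last m))) ?_
  · rwa [one_mul] at h
  · intro i
    induction i using Fin.lastCases with
    | last =>
      rw [Fin.snoc_last]
      exact MvPolynomial.isHomogeneous_X _ _
    | cast i =>
      rw [Fin.snoc_castSucc]
      have h1 : ∀ T : Finset (Fin m), (if i ∈ T then MvPolynomial.X (Fin.last m) else 0 :
          MvPolynomial (Fin (m + 1)) ℤ).IsHomogeneous 1 := by
        intro T
        split_ifs
        · exact MvPolynomial.isHomogeneous_X _ _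
        · exact MvPolynomial.isHomogeneous_zero _ _ _
      exact ((MvPolynomial.isHomogeneous_X _ _).add (h1 _)).sub (h1 _)

lemma mk_subst_cast (i : Fin m) : Ideal.Quotient.mk (relIdeal (Blow X τ' hτ' hn))
    (subst τ τ' (MvPolynomial.X i.castSucc)) =
      px X hτ' hn i - if i ∈ τ then cl X hτ' hn (Fin.last m) else 0 := by
  rw [subst_cast, map_sub, map_add, px]
  congr 1
  · congr 1
    split_ifs
    · rfl
    · exact map_zero _
  · split_ifs
    · rfl
    · exact map_zero _

/-- The substitution carries the relations of one blow-up to relations of the other. -/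
theorem subst_rel {q : MvPolynomial (Fin (m + 1)) ℤ} (hq : q ∈ relIdeal (Blow X τ hτ hn)) :
    subst τ τ' q ∈ relIdeal (Blow X τ' hτ' hn) := by
  have hne : τ.Nonempty := by rw [← Finset.card_pos, hτ.2]; omega
  have hne' : τ'.Nonempty := by rw [← Finset.card_pos, hτ'.2]; omega
  let f : MvPolynomial (Fin (m + 1)) ℤ →+* Coh (Blow X τ' hτ' hn) :=
    (Ideal.Quotient.mk (relIdeal (Blow X τ' hτ' hn))).comp (subst τ τ').toRingHom
  have hf : ∀ q, f q = Ideal.Quotient.mk (relIdeal (Blow X τ' hτ' hn)) (subst τ τ' q) := fun _ => rfl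
  have hfl : f (MvPolynomial.X (Fin.last m)) = cl X hτ' hn (Fin.last m) := by
    rw [hf, subst_last]; rfl
  have hfc : ∀ i : Fin m, f (MvPolynomial.X i.castSucc) =
      px X hτ' hn i - if i ∈ τ then cl X hτ' hn (Fin.last m) else 0 := by
    intro i
    rw [hf, mk_subst_cast]
  have h : relIdeal (Blow X τ hτ hn) ≤ RingHom.ker f := by
    refine sup_le ?_ ?_
    · rw [Ideal.span_le]
      rintro q ⟨σ, hσ, rfl⟩
      rw [SetLike.mem_coe, RingHom.mem_ker, map_prod]
      -- product over the old part divides the product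
      have hdiv : ∀ S : Finset (Fin m), S ⊆ old σ →
          (∏ i ∈ S, f (MvPolynomial.X i.castSucc)) = 0 → ∏ i ∈ σ, f (MvPolynomial.X i) = 0 := by
        intro S hS h0
        have hsub : S.map Fin.castSuccEmb ⊆ σ := by
          intro i hi
          obtain ⟨j, hj, rfl⟩ := Finset.mem_map.1 hi
          exact mem_old.1 (hS hj)
        rw [← Finset.prod_sdiff hsub, Finset.prod_map]
        rw [show ∏ x ∈ S, f (MvPolynomial.X (Fin.castSuccEmb x)) = 0 from h0, mul_zero]
      by_cases h1 : τ ⊆ old σ
      · apply hdiv τ h1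
        simp_rw [hfc]
        rw [prod_sub_last X hτ' hn hne,
          Finset.prod_congr rfl (g := fun _ => - cl X hτ' hn (Fin.last m)) (fun i hi => if_pos hi),
          Finset.prod_const, hτ.2, pull_mon X hτ' hn (mon_eq X hτ hτ')]
        exact px_point X hτ' hn hne'
      · by_cases h2 : old σ ∈ X.faces
        · -- the new vertex belongs to σ
          have h3 : Fin.last m ∈ σ ∧ ¬ old σ ⊆ τ := by
            by_contra hcon
            apply hσ
            refine ⟨h2, h1, ?_⟩
            intro hl
            by_contra h4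
            exact hcon ⟨hl, h4⟩
          obtain ⟨i, hi, hiτ⟩ := Finset.not_subset.1 h3.2
          have hi' : i.castSucc ∈ σ.erase (Fin.last m) :=
            Finset.mem_erase.2 ⟨(Fin.castSucc_lt_last i).ne, mem_old.1 hi⟩
          rw [← Finset.mul_prod_erase σ _ h3.1, ← Finset.mul_prod_erase _ _ hi', ← mul_assoc,
            hfl, hfc, if_neg hiτ, sub_zero, last_mul_px, zero_mul]
        · have hns : ¬ old σ ⊆ τ := fun h' => h2 (X.down_closed _ hτ.1 _ h')
          obtain ⟨i, hi, hiτ⟩ := Finset.not_subset.1 hns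
          apply hdiv (old σ) (Finset.Subset.refl _)
          simp_rw [hfc]
          rw [prod_sub_last X hτ' hn ⟨i, hi⟩, px_nonface X hτ' hn h2,
            Finset.prod_eq_zero (s := old σ)
              (f := fun j => if j ∈ τ then - cl X hτ' hn (Fin.last m) else 0) hi (if_neg hiτ), add_zero]
    · rw [Ideal.span_le]
      rintro q ⟨j, rfl⟩
      rw [SetLike.mem_coe, RingHom.mem_ker, map_sum]
      have h1 := cl_linear X hτ' hn (Pi.single j 1)
      have h2 : ∀ i, ipz (Pi.single j 1) (X.ray i) = X.ray i j := by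
        intro i
        simp [ipz, Pi.single_apply]
      simp_rw [h2] at h1
      rw [Fin.sum_univ_castSucc, Blow_ray, bray_last]
      simp only [bray_cast, map_mul, hfc, hfl, Finset.sum_apply]
      have h3 : ∀ a : ℤ, f (MvPolynomial.C a) = (a : Coh (Blow X τ' hτ' hn)) := by
        intro a
        simp [f]
      simp only [h3, mul_sub, Finset.sum_sub_distrib, h1, zero_sub]
      push_cast
      rw [Finset.sum_mul]
      simp only [mul_ite, mul_zero]
      rw [← Finset.sum_filter]
      simp only [Finset.filter_mem_eq_inter, Finset.univ_inter]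
      rw [neg_add_eq_zero]
  have := h hq
  rw [RingHom.mem_ker, hf, Ideal.Quotient.eq_zero_iff_mem] at this
  exact this

/-- The cohomology rings of the blow-ups at two fixed points are isomorphic. -/
theorem gradedIso_blow : GradedIso (Blow X τ hτ hn) (Blow X τ' hτ' hn) := by
  let e : MvPolynomial (Fin (m + 1)) ℤ ≃+* MvPolynomial (Fin (m + 1)) ℤ :=
    { (subst τ τ').toRingHom with
      invFun := subst τ' τ
      left_inv := subst_subst τ τ'
      right_inv := subst_subst τ' τ }
  have he : ∀ q, e q = subst τ τ' q := fun _ => rfl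
  have hmap : relIdeal (Blow X τ' hτ' hn) = (relIdeal (Blow X τ hτ hn)).map (e : _ →+* _) := by
    apply le_antisymm
    · intro q hq
      have h1 := subst_rel X hτ' hτ hn hq
      have h2 : q = (e : MvPolynomial (Fin (m + 1)) ℤ →+* _) (subst τ' τ q) := by
        rw [RingEquiv.coe_toRingHom, he, subst_subst]
      rw [h2]
      exact Ideal.mem_map_of_mem _ h1
    · rw [Ideal.map_le_iff_le_comap]
      intro q hq
      exact subst_rel X hτ hτ' hn hq
  refine ⟨Ideal.quotientEquiv _ _ e hmap, ?_⟩
  intro k a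
  constructor
  · rintro ⟨q, hq, rfl⟩
    exact ⟨subst τ τ' q, subst_homog _ _ hq, rfl⟩
  · rintro ⟨q, hq, h⟩
    refine ⟨subst τ' τ q, subst_homog _ _ hq, ?_⟩
    apply (Ideal.quotientEquiv _ _ e hmap).injective
    rw [← h, Ideal.quotientEquiv_mk, he, subst_subst]

end

end Pool.Agent.Helper22.BU
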