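import Pool.Agent.Helper22.BU.Ring

/-!
Two blow-ups at different fixed points commute; all double blow-ups have isomorphic rings.
-/

namespace Pool.Agent.Helper22.BU

open Pool.Agent.Helper21.Toric Finset

variable {n m : ℕ}

lemma gi_symm {n m n' m' : ℕ} {X : Fan n m} {Y : Fan n' m'} (h : GradedIso X Y) :
    GradedIso Y X := by
  obtain ⟨e, he⟩ := h
  refine ⟨e.symm, ?_⟩
  intro k a
  rw [he k (e.symm a), e.apply_symm_apply]

lemma gi_trans {n m n' m' n'' m'' : ℕ} {X : Fan n m} {Y : Fan n' m'} {Z : Fan n'' m''}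
    (h : GradedIso X Y) (h' : GradedIso Y Z) : GradedIso X Z := by
  obtain ⟨e, he⟩ := h
  obtain ⟨f, hf⟩ := h'
  refine ⟨e.trans f, ?_⟩
  intro k a
  rw [he k a, hf k (e a)]
  rfl

lemma rename_rel {X Y : Fan n m} (φ : Fin m ≃ Fin m) (hr : ∀ i, Y.ray (φ i) = X.ray i)
    (hf : ∀ σ, σ ∈ X.faces ↔ σ.map φ.toEmbedding ∈ Y.faces) {q : MvPolynomial (Fin m) ℤ}
    (hq : q ∈ relIdeal X) : MvPolynomial.rename φ q ∈ relIdeal Y := by
  have h : relIdeal X ≤ (relIdeal Y).comap (MvPolynomial.rename φ).toRingHom := by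
    refine sup_le ?_ ?_
    · rw [Ideal.span_le]
      rintro q ⟨σ, hσ, rfl⟩
      rw [SetLike.mem_coe, Ideal.mem_comap]
      apply Ideal.mem_sup_left
      apply Ideal.subset_span
      refine ⟨σ.map φ.toEmbedding, fun h => hσ ((hf σ).2 h), ?_⟩
      rw [map_prod, Finset.prod_map]
      simp
    · rw [Ideal.span_le]
      rintro q ⟨j, rfl⟩
      rw [SetLike.mem_coe, Ideal.mem_comap]
      apply Ideal.mem_sup_right
      apply Ideal.subset_span
      refine ⟨j, ?_⟩
      rw [map_sum]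
      simp only
      rw [← Equiv.sum_comp φ]
      apply Finset.sum_congr rfl
      intro i _
      rw [hr]
      simp
  exact h hq

lemma gradedIso_of_perm {X Y : Fan n m} (φ : Fin m ≃ Fin m) (hr : ∀ i, Y.ray (φ i) = X.ray i)
    (hf : ∀ σ, σ ∈ X.faces ↔ σ.map φ.toEmbedding ∈ Y.faces) : GradedIso X Y := by
  have hr' : ∀ i, X.ray (φ.symm i) = Y.ray i := by
    intro i; rw [← hr, φ.apply_symm_apply]
  have hf' : ∀ σ, σ ∈ Y.faces ↔ σ.map φ.symm.toEmbedding ∈ X.faces := by
    intro σ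
    rw [hf, Finset.map_map]
    have : (φ.symm.toEmbedding.trans φ.toEmbedding) = Function.Embedding.refl _ := by
      ext x; simp
    rw [this, Finset.map_refl]
  have hinv : ∀ q : MvPolynomial (Fin m) ℤ, MvPolynomial.rename φ (MvPolynomial.rename φ.symm q) = q := by
    intro q
    rw [MvPolynomial.rename_rename]
    simp
  have hinv' : ∀ q : MvPolynomial (Fin m) ℤ, MvPolynomial.rename φ.symm (MvPolynomial.rename φ q) = q := by
    intro q
    rw [MvPolynomial.rename_rename]
    simp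
  let e : MvPolynomial (Fin m) ℤ ≃+* MvPolynomial (Fin m) ℤ :=
    { (MvPolynomial.rename φ : MvPolynomial (Fin m) ℤ →ₐ[ℤ] _).toRingHom with
      invFun := MvPolynomial.rename φ.symm
      left_inv := hinv'
      right_inv := hinv }
  have he : ∀ q, e q = MvPolynomial.rename φ q := fun _ => rfl
  have hmap : relIdeal Y = (relIdeal X).map (e : _ →+* _) := by
    apply le_antisymm
    · intro q hq
      have h1 := rename_rel φ.symm hr' hf' hq
      have h2 : q = (e : MvPolynomial (Fin m) ℤ →+* _) (MvPolynomial.rename φ.symm q) := by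
        rw [RingEquiv.coe_toRingHom, he, hinv]
      rw [h2]
      exact Ideal.mem_map_of_mem _ h1
    · rw [Ideal.map_le_iff_le_comap]
      intro q hq
      exact rename_rel φ hr hf hq
  refine ⟨Ideal.quotientEquiv _ _ e hmap, ?_⟩
  intro k a
  constructor
  · rintro ⟨q, hq, rfl⟩
    exact ⟨MvPolynomial.rename φ q, hq.rename_isHomogeneous, rfl⟩
  · rintro ⟨q, hq, h⟩
    refine ⟨MvPolynomial.rename φ.symm q, hq.rename_isHomogeneous, ?_⟩
    apply (Ideal.quotientEquiv _ _ e hmap).injective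
    rw [← h, Ideal.quotientEquiv_mk, he, hinv]

/-- an old facet stays a facet -/
lemma isFacet_map {K : Set (Finset (Fin m))} {τ τ' : Finset (Fin m)} (hτ : IsFacet n K τ)
    (hτ' : IsFacet n K τ') (hne : τ ≠ τ') : IsFacet n (stack K τ) (τ'.map Fin.castSuccEmb) := by
  refine ⟨⟨?_, ?_, ?_⟩, ?_⟩
  · rw [old_map]; exact hτ'.1
  · rw [old_map]
    intro h
    exact hne (Finset.eq_of_subset_of_card_le h (by rw [hτ.2, hτ'.2]))
  · intro h; exact absurd h (last_notMem_map _)
  · rw [Finset.card_map]; exact hτ'.2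

/-- a facet containing the new vertex -/
lemma isFacet_new {K : Set (Finset (Fin m))} (hK : ∀ σ ∈ K, ∀ τ, τ ⊆ σ → τ ∈ K)
    {τ : Finset (Fin m)} (hτ : IsFacet n K τ) {v : Fin m} (hv : v ∈ τ) :
    IsFacet n (stack K τ) (insert (Fin.last m) ((τ.erase v).map Fin.castSuccEmb)) := by
  refine ⟨⟨?_, ?_, ?_⟩, ?_⟩
  · rw [old_insert]; exact hK _ hτ.1 _ (Finset.erase_subset _ _)
  · rw [old_insert]
    intro h
    exact Finset.notMem_erase v τ (h hv)
  · intro _
    rw [old_insert]
    exact Finset.erase_subset _ _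
  · rw [Finset.card_insert_of_notMem (last_notMem_map _), Finset.card_map,
      Finset.card_erase_of_mem hv, hτ.2]
    have : 0 < τ.card := Finset.card_pos.2 ⟨v, hv⟩
    rw [hτ.2] at this
    omega

/-- the transposition of the two new vertices -/
def sw (m : ℕ) : Fin (m + 1 + 1) ≃ Fin (m + 1 + 1) :=
  Equiv.swap (Fin.last (m + 1)) (Fin.last m).castSucc

lemma sw_last : sw m (Fin.last (m + 1)) = (Fin.last m).castSucc := by simp [sw]
lemma sw_last' : sw m (Fin.last m).castSucc = Fin.last (m + 1) := by simp [sw]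
lemma sw_cast (i : Fin m) : sw m i.castSucc.castSucc = i.castSucc.castSucc := by
  rw [sw, Equiv.swap_apply_of_ne_of_ne]
  · exact (Fin.castSucc_lt_last _).ne
  · intro h
    exact (Fin.castSucc_lt_last i).ne (Fin.castSucc_injective _ h)

lemma mem_map_sw {σ : Finset (Fin (m + 1 + 1))} {i : Fin (m + 1 + 1)} :
    sw m i ∈ σ.map (sw m).toEmbedding ↔ i ∈ σ := by
  simp

lemma old_old_sw (σ : Finset (Fin (m + 1 + 1))) :
    old (old (σ.map (sw m).toEmbedding)) = old (old σ) := by
  ext i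
  rw [mem_old, mem_old, mem_old, mem_old]
  conv_lhs => rw [← sw_cast i]
  exact mem_map_sw

lemma mem_stack2 {K : Set (Finset (Fin m))} {τ τ' : Finset (Fin m)}
    {σ : Finset (Fin (m + 1 + 1))} : σ ∈ stack (stack K τ) (τ'.map Fin.castSuccEmb) ↔
      old (old σ) ∈ K ∧ ¬ τ ⊆ old (old σ) ∧ ¬ τ' ⊆ old (old σ) ∧
      ((Fin.last m).castSucc ∈ σ → old (old σ) ⊆ τ) ∧
      (Fin.last (m + 1) ∈ σ → (Fin.last m).castSucc ∉ σ ∧ old (old σ) ⊆ τ') := by
  have h1 : τ'.map Fin.castSuccEmb ⊆ old σ ↔ τ' ⊆ old (old σ) := by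
    constructor
    · intro h i hi
      rw [mem_old]
      exact h (Finset.mem_map_of_mem _ hi)
    · intro h i hi
      obtain ⟨j, hj, rfl⟩ := Finset.mem_map.1 hi
      exact mem_old.1 (h hj)
  have h2 : old σ ⊆ τ'.map Fin.castSuccEmb ↔ (Fin.last m).castSucc ∉ σ ∧ old (old σ) ⊆ τ' := by
    constructor
    · intro h
      refine ⟨fun hl => last_notMem_map τ' (h (mem_old.2 hl)), ?_⟩
      intro i hi
      have := h (mem_old.1 hi)
      simpa using this
    · rintro ⟨hl, h⟩ i hi
      induction i using Fin.lastCases with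
      | last => exact absurd (mem_old.1 hi) hl
      | cast i =>
        have := h (mem_old.2 hi)
        exact Finset.mem_map_of_mem _ this
  constructor
  · rintro ⟨⟨a1, a2, a3⟩, a4, a5⟩
    exact ⟨a1, a2, fun h => a4 (h1.2 h), fun h => a3 (mem_old.2 h), fun h => h2.1 (a5 h)⟩
  · rintro ⟨a1, a2, a3, a4, a5⟩
    exact ⟨⟨a1, a2, fun h => a4 (mem_old.1 h)⟩, fun h => a3 (h1.1 h), fun h => h2.2 (a5 h)⟩

lemma gradedIso_swap (X : Fan n m) {τ τ' : Finset (Fin m)} (hτ : IsFacet n X.faces τ)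
    (hτ' : IsFacet n X.faces τ') (hn : 2 ≤ n)
    (h1 : IsFacet n (Blow X τ hτ hn).faces (τ'.map Fin.castSuccEmb))
    (h2 : IsFacet n (Blow X τ' hτ' hn).faces (τ.map Fin.castSuccEmb)) :
    GradedIso (Blow (Blow X τ hτ hn) _ h1 hn) (Blow (Blow X τ' hτ' hn) _ h2 hn) := by
  apply gradedIso_of_perm (sw m)
  · intro i
    induction i using Fin.lastCases with
    | last =>
      rw [sw_last]
      simp only [Blow_ray, bray_cast, bray_last]
      rw [Finset.sum_map]
      exact Finset.sum_congr rfl (fun i _ => (bray_cast _ _ i).symm)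
    | cast i =>
      induction i using Fin.lastCases with
      | last =>
        rw [sw_last']
        simp only [Blow_ray, bray_cast, bray_last]
        rw [Finset.sum_map]
        exact Finset.sum_congr rfl (fun i _ => (bray_cast _ _ i))
      | cast i =>
        rw [sw_cast]
        simp only [Blow_ray, bray_cast]
  · intro σ
    have e1 : ((Fin.last m).castSucc ∈ σ.map (sw m).toEmbedding) ↔ Fin.last (m + 1) ∈ σ := by
      rw [← sw_last]; exact mem_map_sw
    have e2 : (Fin.last (m + 1) ∈ σ.map (sw m).toEmbedding) ↔ (Fin.last m).castSucc ∈ σ := by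
      conv_lhs => rw [← sw_last' (m := m)]
      exact mem_map_sw
    rw [Blow_faces, Blow_faces, Blow_faces, Blow_faces, mem_stack2, mem_stack2, old_old_sw, e1, e2]
    tauto

/-- All double blow-ups have isomorphic rings. -/
theorem gradedIso_double (X : Fan n m) (hn : 2 ≤ n) {τ τ' : Finset (Fin m)}
    (hτ : IsFacet n X.faces τ) (hτ' : IsFacet n X.faces τ') {σ σ' : Finset (Fin (m + 1))}
    (hσ : IsFacet n (Blow X τ hτ hn).faces σ) (hσ' : IsFacet n (Blow X τ' hτ' hn).faces σ') :
    GradedIso (Blow (Blow X τ hτ hn) σ hσ hn) (Blow (Blow X τ' hτ' hn) σ' hσ' hn) := by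
  by_cases hne : τ = τ'
  · subst hne
    exact gradedIso_blow _ hσ hσ' hn
  · have h1 : IsFacet n (Blow X τ hτ hn).faces (τ'.map Fin.castSuccEmb) := isFacet_map hτ hτ' hne
    have h2 : IsFacet n (Blow X τ' hτ' hn).faces (τ.map Fin.castSuccEmb) :=
      isFacet_map hτ' hτ (Ne.symm hne)
    exact gi_trans (gi_trans (gradedIso_blow _ hσ h1 hn) (gradedIso_swap X hτ hτ' hn h1 h2))
      (gradedIso_blow _ h2 hσ' hn)

end Pool.Agent.Helper22.BU
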